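import Mathlib

set_option autoImplicit false

namespace Pool.Agent.Helper90.BK

open scoped RealInnerProductSpace

variable {H : Type*} [NormedAddCommGroup H] [InnerProductSpace ℝ H]

/-- If `n` consecutive steps of every chain have length at most `(1+k)As` and the total
displacement is at least `A(n+1)s` up to `2Ls`, then at some index all steps are close to one
common vector. -/
lemma pigeon {ι : Type*} [Fintype ι] (n : ℕ) (hn : 0 < n) (F : ℕ → ι → H) (Z : H)
    (A k s L : ℝ) (hA : 0 < A) (hk : 0 < k) (hs : 0 < s)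
    (hstep : ∀ i < n, ∀ c, ‖F (i + 1) c - F i c‖ ≤ (1 + k) * A * s)
    (hZ : A * (n + 1) * s ≤ ‖Z‖)
    (hend : ∀ c, ‖(F n c - F 0 c) - Z‖ ≤ 2 * L * s) :
    ∃ i < n, ∃ e : H, ∀ c, ‖(F (i + 1) c - F i c) - e‖ ^ 2 ≤
      2 * ((1 + k) * A * s) * (Fintype.card ι * ((k * A + 2 * L / n) * s)) := by
  have hn' : (0 : ℝ) < n := by exact_mod_cast hn
  have hZpos : 0 < ‖Z‖ := lt_of_lt_of_le (by positivity) hZ
  set e : H := (‖Z‖)⁻¹ • Z with he
  have hen : ‖e‖ = 1 := by
    rw [he, norm_smul, norm_inv, norm_norm, inv_mul_cancel₀ hZpos.ne']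
  have hZe : ⟪Z, e⟫ = ‖Z‖ := by
    rw [he, inner_smul_right, real_inner_self_eq_norm_sq]
    field_simp
  set B : ℝ := (1 + k) * A * s with hB
  have hBpos : 0 < B := by positivity
  let d : ℕ → ι → ℝ := fun i c => B - ⟪F (i + 1) c - F i c, e⟫
  have hd0 : ∀ i < n, ∀ c, 0 ≤ d i c := by
    intro i hi c
    have h1 : ⟪F (i + 1) c - F i c, e⟫ ≤ ‖F (i + 1) c - F i c‖ * ‖e‖ := real_inner_le_norm _ _
    rw [hen, mul_one] at h1
    have h2 := hstep i hi c
    simp only [d]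
    linarith
  have hsum : ∀ c, ∑ i ∈ Finset.range n, d i c ≤ (n * (k * A) + 2 * L) * s := by
    intro c
    have h1 : ∑ i ∈ Finset.range n, d i c = n * B - ⟪F n c - F 0 c, e⟫ := by
      simp only [d]
      rw [Finset.sum_sub_distrib, Finset.sum_const, Finset.card_range, nsmul_eq_mul]
      congr 1
      rw [← sum_inner, Finset.sum_range_sub (fun i => F i c)]
    have h2 : ⟪F n c - F 0 c, e⟫ = ⟪Z, e⟫ + ⟪(F n c - F 0 c) - Z, e⟫ := by
      rw [← inner_add_left]; congr 1; abel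
    have h3 : |⟪(F n c - F 0 c) - Z, e⟫| ≤ ‖(F n c - F 0 c) - Z‖ * ‖e‖ := abs_real_inner_le_norm _ _
    rw [hen, mul_one] at h3
    have h4 := (abs_le.mp (h3.trans (hend c))).1
    rw [h1, h2, hZe, hB]
    nlinarith
  have hexi : ∃ i ∈ Finset.range n, ∑ c, d i c ≤ Fintype.card ι * ((k * A + 2 * L / n) * s) := by
    by_contra hcon
    push Not at hcon
    have h1 : ∑ i ∈ Finset.range n, (Fintype.card ι * ((k * A + 2 * L / n) * s)) <
        ∑ i ∈ Finset.range n, ∑ c, d i c :=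
      Finset.sum_lt_sum_of_nonempty ⟨0, Finset.mem_range.2 hn⟩ hcon
    rw [Finset.sum_comm, Finset.sum_const, Finset.card_range, nsmul_eq_mul] at h1
    have h2 : ∑ c : ι, ∑ i ∈ Finset.range n, d i c ≤ ∑ _c : ι, (n * (k * A) + 2 * L) * s :=
      Finset.sum_le_sum fun c _ => hsum c
    rw [Finset.sum_const, Finset.card_univ, nsmul_eq_mul] at h2
    have h3 : (n : ℝ) * (Fintype.card ι * ((k * A + 2 * L / n) * s)) =
        Fintype.card ι * ((n * (k * A) + 2 * L) * s) := by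
      field_simp
    linarith
  obtain ⟨i, hi, hi2⟩ := hexi
  rw [Finset.mem_range] at hi
  refine ⟨i, hi, B • e, fun c => ?_⟩
  have hdc : d i c ≤ Fintype.card ι * ((k * A + 2 * L / n) * s) :=
    (Finset.single_le_sum (fun c _ => hd0 i hi c) (Finset.mem_univ c)).trans hi2
  have h1 := hstep i hi c
  have h2 : ‖(F (i + 1) c - F i c) - B • e‖ ^ 2 =
      ‖F (i + 1) c - F i c‖ ^ 2 - 2 * B * ⟪F (i + 1) c - F i c, e⟫ + B ^ 2 := by
    rw [norm_sub_sq_real, inner_smul_right, norm_smul, hen, Real.norm_eq_abs, mul_one, sq_abs]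
    ring
  have h3 : ‖F (i + 1) c - F i c‖ ^ 2 ≤ B ^ 2 := by
    apply pow_le_pow_left₀ (norm_nonneg _) h1
  rw [h2]
  have h4 : 2 * B * d i c ≤ 2 * B * (Fintype.card ι * ((k * A + 2 * L / n) * s)) :=
    mul_le_mul_of_nonneg_left hdc (by positivity)
  have h5 : 2 * B * d i c = 2 * B ^ 2 - 2 * B * ⟪F (i + 1) c - F i c, e⟫ := by
    simp only [d]; ring
  linarith

/-- The bijection onto a subgroup turns an almost-translation into an injection. -/
lemma count_le {Y : Set (ℤ × ℤ)} {Λ : AddSubgroup H} {f : ℤ × ℤ → H}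
    (hbij : Set.BijOn f Y Λ) (V : H) (hV : V ∈ Λ) (S S' : Finset (ℤ × ℤ))
    [DecidablePred (· ∈ Y)]
    (h : ∀ y ∈ Y, y ∈ S → ∀ y' ∈ Y, f y' = f y - V → y' ∈ S') :
    (S.filter (· ∈ Y)).card ≤ (S'.filter (· ∈ Y)).card := by
  classical
  have key : ∀ y ∈ Y, ∃ y' ∈ Y, f y' = f y - V := by
    intro y hy
    have h1 : f y - V ∈ (Λ : Set H) := Λ.sub_mem (hbij.mapsTo hy) hV
    exact hbij.surjOn h1
  choose! g hg1 hg2 using key
  apply Finset.card_le_card_of_injOn g
  · intro y hy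
    rw [Finset.mem_coe, Finset.mem_filter] at hy
    rw [Finset.mem_coe, Finset.mem_filter]
    exact ⟨h y hy.2 hy.1 _ (hg1 y hy.2) (hg2 y hy.2), hg1 y hy.2⟩
  · intro y hy z hz hyz
    rw [Finset.mem_coe, Finset.mem_filter] at hy hz
    have h1 := hg2 y hy.2
    have h2 := hg2 z hz.2
    rw [hyz, h2] at h1
    have h3 : f z = f y := by
      have := sub_left_injective h1
      exact this
    exact (hbij.injOn hy.2 hz.2 h3.symm)

end Pool.Agent.Helper90.BK
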