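import Mathlib
import Pool.Agent.Helper90.BK1

set_option autoImplicit false

namespace Pool.Agent.Helper90.BK

open scoped Classical in
/-- number of points of `Y` in the `q`-block with index `(i,j)` -/
noncomputable def cnt (Y : Set (ℤ × ℤ)) (q i j : ℕ) : ℕ :=
  (((Finset.Ico (q * i : ℤ) (q * i + q)) ×ˢ (Finset.Ico (q * j : ℤ) (q * j + q))).filter
    (· ∈ Y)).card

/-- the recursive checkerboard pattern -/
def pat (M D : ℕ) : ℕ → ℕ → ℕ → Bool
  | 0, _, _ => false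
  | m + 1, I, J =>
    if J % (D * (D * M ^ 2) ^ m) < (D * M ^ 2) ^ m ∧
        (J / (D * (D * M ^ 2) ^ m) % M) * (M * (D * (D * M ^ 2) ^ m)) ≤ I ∧
        (I - (J / (D * (D * M ^ 2) ^ m) % M) * (M * (D * (D * M ^ 2) ^ m))) /
          (D * M ^ 2) ^ (m + 1) + 1 < D * M ^ 2 then
      pat M D m ((I - (J / (D * (D * M ^ 2) ^ m) % M) * (M * (D * (D * M ^ 2) ^ m))) %
        (D * M ^ 2) ^ (m + 1)) (J % (D * (D * M ^ 2) ^ m))
    else decide ((I / (D * M ^ 2) ^ (m + 1)) % 2 = 1)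

/-- `c` is a count of type `b` -/
def typ (u : ℕ) (b : Bool) (c : ℕ) : Prop := if b = true then u + 4 ≤ c else c ≤ u + 1

/-- the pattern of level `m` with cell side `t` is present at block `(v1,v2)` -/
def Present (C : ℕ → ℕ → ℕ) (u M D t m v1 v2 : ℕ) : Prop :=
  ∀ x < (D * M ^ 2) ^ (m + 1) * t, ∀ y < (D * M ^ 2) ^ m * t,
    typ u (pat M D m (x / t) (y / t)) (C (v1 + x) (v2 + y))

lemma pat_sub (M D m i p r a b : ℕ) (hD : 0 < D) (hM : 0 < M)
    (hi : i + 1 < D * M ^ 2) (hp : p < M)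
    (ha : a < (D * M ^ 2) ^ (m + 1)) (hb : b < (D * M ^ 2) ^ m) :
    pat M D (m + 1)
      (i * (D * M ^ 2) ^ (m + 1) + p * (M * (D * (D * M ^ 2) ^ m)) + a)
      ((r * M + p) * (D * (D * M ^ 2) ^ m) + b) = pat M D m a b := by
  set g := D * (D * M ^ 2) ^ m with hg
  have hRpos : 0 < (D * M ^ 2) ^ m := by positivity
  have hgb : b < g := by
    rw [hg]
    calc b < (D * M ^ 2) ^ m := hb
      _ ≤ D * (D * M ^ 2) ^ m := Nat.le_mul_of_pos_left _ hD
  have h1 : ((r * M + p) * g + b) % g = b := by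
    rw [mul_comm, Nat.mul_add_mod, Nat.mod_eq_of_lt hgb]
  have h2 : ((r * M + p) * g + b) / g = r * M + p := by
    rw [mul_comm, Nat.mul_add_div (by omega), Nat.div_eq_of_lt hgb, add_zero]
  have h3 : (r * M + p) % M = p := by
    rw [mul_comm, Nat.mul_add_mod, Nat.mod_eq_of_lt hp]
  have h4 : i * (D * M ^ 2) ^ (m + 1) + p * (M * g) + a - p * (M * g) =
      i * (D * M ^ 2) ^ (m + 1) + a := by omega
  have h5 : (i * (D * M ^ 2) ^ (m + 1) + a) / (D * M ^ 2) ^ (m + 1) = i := by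
    rw [mul_comm, Nat.mul_add_div (by positivity), Nat.div_eq_of_lt ha, add_zero]
  have h6 : (i * (D * M ^ 2) ^ (m + 1) + a) % (D * M ^ 2) ^ (m + 1) = a := by
    rw [mul_comm, Nat.mul_add_mod, Nat.mod_eq_of_lt ha]
  rw [pat, ← hg]
  rw [h1, h2, h3, h4, h5, h6]
  rw [if_pos]
  refine ⟨hb, by omega, hi⟩

lemma pat_free (M D m I J : ℕ) (hJ : (D * M ^ 2) ^ m ≤ J % (D * (D * M ^ 2) ^ m)) :
    pat M D (m + 1) I J = decide ((I / (D * M ^ 2) ^ (m + 1)) % 2 = 1) := by
  rw [pat, if_neg]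
  rintro ⟨h, -⟩
  omega

lemma present_sub {C : ℕ → ℕ → ℕ} {u M D t m v1 v2 : ℕ} (hD : 0 < D) (hM : 0 < M) (ht : 0 < t)
    (h : Present C u M D t (m + 1) v1 v2) {i p r : ℕ} (hi : i + 1 < D * M ^ 2) (hp : p < M)
    (hr : r < M) :
    Present C u M D t m
      (v1 + (i * (D * M ^ 2) ^ (m + 1) + p * (M * (D * (D * M ^ 2) ^ m))) * t)
      (v2 + ((r * M + p) * (D * (D * M ^ 2) ^ m)) * t) := by
  intro x hx y hy
  have hxt : x / t < (D * M ^ 2) ^ (m + 1) := by
    rw [Nat.div_lt_iff_lt_mul ht]; exact hx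
  have hyt : y / t < (D * M ^ 2) ^ m := by
    rw [Nat.div_lt_iff_lt_mul ht]; exact hy
  set g := D * (D * M ^ 2) ^ m with hg
  have hRg : (D * M ^ 2) ^ (m + 1) = M * (M * g) := by rw [hg]; ring
  have hbig : (i * (D * M ^ 2) ^ (m + 1) + p * (M * g)) * t + x <
      (D * M ^ 2) ^ (m + 1 + 1) * t := by
    have h1 : p * (M * g) + M * g ≤ M * (M * g) := by
      calc p * (M * g) + M * g = (p + 1) * (M * g) := by ring
        _ ≤ M * (M * g) := Nat.mul_le_mul_right _ hp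
    have h2 : (i + 2) * (D * M ^ 2) ^ (m + 1) ≤ (D * M ^ 2) ^ (m + 1 + 1) := by
      rw [pow_succ _ (m + 1), mul_comm _ (D * M ^ 2)]
      exact Nat.mul_le_mul_right _ (by omega)
    have h3 : (i * (D * M ^ 2) ^ (m + 1) + p * (M * g)) * t + x <
        ((i + 2) * (D * M ^ 2) ^ (m + 1)) * t := by
      have h4 : x < M * (M * g) * t := by rw [← hRg]; exact hx
      have h5 : p * (M * g) * t ≤ M * (M * g) * t :=
        Nat.mul_le_mul_right _ (by omega)
      calc (i * (D * M ^ 2) ^ (m + 1) + p * (M * g)) * t + x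
          = i * (D * M ^ 2) ^ (m + 1) * t + p * (M * g) * t + x := by ring
        _ < i * (D * M ^ 2) ^ (m + 1) * t + M * (M * g) * t + M * (M * g) * t := by omega
        _ = ((i + 2) * (D * M ^ 2) ^ (m + 1)) * t := by rw [hRg]; ring
    exact lt_of_lt_of_le h3 (Nat.mul_le_mul_right _ h2)
  have hbig2 : ((r * M + p) * g) * t + y < (D * M ^ 2) ^ (m + 1) * t := by
    have h1 : (r * M + p) + 1 ≤ M * M := by
      have : (r + 1) * M ≤ M * M := Nat.mul_le_mul_right _ hr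
      calc r * M + p + 1 ≤ r * M + M := by omega
        _ = (r + 1) * M := by ring
        _ ≤ M * M := this
    have h2 : y < g * t := by
      calc y < (D * M ^ 2) ^ m * t := hy
        _ ≤ g * t := Nat.mul_le_mul_right _ (by rw [hg]; exact Nat.le_mul_of_pos_left _ hD)
    calc ((r * M + p) * g) * t + y < ((r * M + p) * g) * t + g * t := by omega
      _ = (r * M + p + 1) * (g * t) := by ring
      _ ≤ (M * M) * (g * t) := Nat.mul_le_mul_right _ h1
      _ = (D * M ^ 2) ^ (m + 1) * t := by rw [hRg]; ring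
  have key := h _ hbig _ hbig2
  have e1 : ((i * (D * M ^ 2) ^ (m + 1) + p * (M * g)) * t + x) / t =
      i * (D * M ^ 2) ^ (m + 1) + p * (M * g) + x / t := by
    rw [mul_comm, Nat.mul_add_div ht]
  have e2 : (((r * M + p) * g) * t + y) / t = (r * M + p) * g + y / t := by
    rw [mul_comm, Nat.mul_add_div ht]
  rw [e1, e2, hg, pat_sub M D m i p r _ _ hD hM hi hp hxt hyt] at key
  rw [add_assoc, add_assoc, hg]
  exact key

end Pool.Agent.Helper90.BK
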