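import Mathlib
import Pool.Agent.Helper90.BK2

set_option autoImplicit false

namespace Pool.Agent.Helper90.BK

lemma sum_Ico_split (q : ℕ) (F : ℤ → ℕ) (X n : ℕ) :
    ∑ a ∈ Finset.Ico (q * X : ℤ) (q * X + q * n), F a =
      ∑ x ∈ Finset.range n, ∑ a ∈ Finset.Ico (q * (X + x : ℕ) : ℤ) (q * (X + x : ℕ) + q), F a := by
  induction n with
  | zero => simp
  | succ n ih =>
    rw [Finset.sum_range_succ, ← ih]
    have h1 : Finset.Ico (q * X : ℤ) (q * X + q * (n + 1 : ℕ)) =
        Finset.Ico (q * X : ℤ) (q * X + q * n) ∪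
          Finset.Ico (q * (X + n : ℕ) : ℤ) (q * (X + n : ℕ) + q) := by
      ext a
      simp only [Finset.mem_union, Finset.mem_Ico]
      push_cast
      have : (0 : ℤ) ≤ q * n := by positivity
      have h2 : (0 : ℤ) ≤ q := by positivity
      constructor
      · rintro ⟨h3, h4⟩
        by_cases h5 : a < q * X + q * n
        · exact Or.inl ⟨h3, h5⟩
        · right; constructor <;> linarith
      · rintro (⟨h3, h4⟩ | ⟨h3, h4⟩) <;> constructor <;> linarith
    rw [h1, Finset.sum_union]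
    rw [Finset.disjoint_left]
    intro a ha hb
    rw [Finset.mem_Ico] at ha hb
    push_cast at hb
    linarith [ha.2, hb.1]

open scoped Classical in
/-- number of points of `Y` in the box of `n × n` blocks at `(X,Z)` -/
noncomputable def boxcnt (Y : Set (ℤ × ℤ)) (q X Z n : ℕ) : ℕ :=
  (((Finset.Ico (q * X : ℤ) (q * X + q * n)) ×ˢ
    (Finset.Ico (q * Z : ℤ) (q * Z + q * n))).filter (· ∈ Y)).card

lemma boxcnt_eq (Y : Set (ℤ × ℤ)) (q X Z n : ℕ) :
    boxcnt Y q X Z n =
      ∑ x ∈ Finset.range n, ∑ y ∈ Finset.range n, cnt Y q (X + x) (Z + y) := by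
  classical
  unfold boxcnt cnt
  simp only [Finset.card_filter, Finset.sum_product]
  rw [sum_Ico_split]
  refine Finset.sum_congr rfl fun x _ => ?_
  rw [Finset.sum_comm, Finset.sum_comm' (s := Finset.range n)
    (t := fun _ => Finset.Ico (q * (X + x : ℕ) : ℤ) (q * (X + x : ℕ) + q))
    (t' := Finset.Ico (q * (X + x : ℕ) : ℤ) (q * (X + x : ℕ) + q))
    (s' := fun _ => Finset.range n) (by intro a b; tauto)]
  rw [Finset.sum_comm]
  refine Finset.sum_congr rfl fun a _ => ?_
  rw [sum_Ico_split]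

/-- overridden rows -/
def ovr (M D t m : ℕ) (y : ℕ) : Prop :=
  (y / t) % (D * (D * M ^ 2) ^ m) < (D * M ^ 2) ^ m

instance (M D t m : ℕ) : DecidablePred (ovr M D t m) := fun y => by unfold ovr; infer_instance

lemma card_ovr (M D t m : ℕ) (hD : 0 < D) (hM : 0 < M) (ht : 0 < t) :
    D * ((Finset.range ((D * M ^ 2) ^ (m + 1) * t)).filter (ovr M D t m)).card ≤
      (D * M ^ 2) ^ (m + 1) * t := by
  set g := D * (D * M ^ 2) ^ m with hg
  have hgpos : 0 < g := by positivity
  have hRg : (D * M ^ 2) ^ (m + 1) = M ^ 2 * g := by rw [hg]; ring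
  have h1 : ((Finset.range ((D * M ^ 2) ^ (m + 1) * t)).filter (ovr M D t m)).card ≤
      (Finset.range (M ^ 2) ×ˢ Finset.range ((D * M ^ 2) ^ m * t)).card := by
    apply Finset.card_le_card_of_injOn (fun y => (y / (g * t), y % (g * t)))
    · intro y hy
      rw [Finset.mem_coe, Finset.mem_filter, Finset.mem_range] at hy
      obtain ⟨hy1, hy2⟩ := hy
      rw [Finset.mem_coe, Finset.mem_product, Finset.mem_range, Finset.mem_range]
      constructor
      · rw [Nat.div_lt_iff_lt_mul (by positivity)]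
        calc y < (D * M ^ 2) ^ (m + 1) * t := hy1
          _ = M ^ 2 * (g * t) := by rw [hRg]; ring
      · unfold ovr at hy2
        rw [← hg] at hy2
        have h2 : y % (g * t) / t = (y / t) % g := by
          rw [mul_comm g t, Nat.mod_mul_right_div_self]
        rw [← h2, Nat.div_lt_iff_lt_mul ht] at hy2
        exact hy2
    · intro y _ z _ hyz
      simp only [Prod.mk.injEq] at hyz
      rw [← Nat.div_add_mod y (g * t), ← Nat.div_add_mod z (g * t), hyz.1, hyz.2]
  rw [Finset.card_product, Finset.card_range, Finset.card_range] at h1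
  calc D * _ ≤ D * (M ^ 2 * ((D * M ^ 2) ^ m * t)) := Nat.mul_le_mul_left _ h1
    _ = (D * M ^ 2) ^ (m + 1) * t := by ring

lemma typ_cell {C : ℕ → ℕ → ℕ} {u M D t m v1 v2 : ℕ} (hD : 0 < D) (hM : 0 < M) (ht : 0 < t)
    (h : Present C u M D t (m + 1) v1 v2) {i x y : ℕ} (hi : i < D * M ^ 2)
    (hx : x < (D * M ^ 2) ^ (m + 1) * t) (hy : y < (D * M ^ 2) ^ (m + 1) * t)
    (hov : ¬ ovr M D t m y) :
    typ u (decide (i % 2 = 1)) (C (v1 + i * ((D * M ^ 2) ^ (m + 1) * t) + x) (v2 + y)) := by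
  have hX : i * ((D * M ^ 2) ^ (m + 1) * t) + x < (D * M ^ 2) ^ (m + 1 + 1) * t := by
    calc i * ((D * M ^ 2) ^ (m + 1) * t) + x
        < i * ((D * M ^ 2) ^ (m + 1) * t) + (D * M ^ 2) ^ (m + 1) * t := by omega
      _ = (i + 1) * ((D * M ^ 2) ^ (m + 1) * t) := by ring
      _ ≤ (D * M ^ 2) * ((D * M ^ 2) ^ (m + 1) * t) := Nat.mul_le_mul_right _ hi
      _ = (D * M ^ 2) ^ (m + 1 + 1) * t := by ring
  have h1 := h _ hX y hy
  have e1 : (i * ((D * M ^ 2) ^ (m + 1) * t) + x) / t = i * (D * M ^ 2) ^ (m + 1) + x / t := by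
    rw [show i * ((D * M ^ 2) ^ (m + 1) * t) + x = t * (i * (D * M ^ 2) ^ (m + 1)) + x by ring,
      Nat.mul_add_div ht]
  have hxt : x / t < (D * M ^ 2) ^ (m + 1) := by rw [Nat.div_lt_iff_lt_mul ht]; exact hx
  have e2 : (i * (D * M ^ 2) ^ (m + 1) + x / t) / (D * M ^ 2) ^ (m + 1) = i := by
    rw [mul_comm, Nat.mul_add_div (by positivity), Nat.div_eq_of_lt hxt, add_zero]
  rw [e1, pat_free, e2, ← add_assoc] at h1
  · exact h1
  · unfold ovr at hov
    omega

lemma square_diff {C : ℕ → ℕ → ℕ} {u M D t m v1 v2 T : ℕ} (hD : 8 ≤ D) (hM : 0 < M) (ht : 0 < t)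
    (h : Present C u M D t (m + 1) v1 v2)
    (hlo : ∀ i j, i < T → j < T → u ≤ C i j) (hhi : ∀ i j, i < T → j < T → C i j ≤ u + 5)
    (hv1 : v1 + (D * M ^ 2) ^ (m + 2) * t ≤ T) (hv2 : v2 + (D * M ^ 2) ^ (m + 1) * t ≤ T)
    {i j : ℕ} (hi : i < D * M ^ 2) (hi2 : i % 2 = 1) (hj : j < D * M ^ 2) (hj2 : j % 2 = 0) :
    (∑ x ∈ Finset.range ((D * M ^ 2) ^ (m + 1) * t), ∑ y ∈ Finset.range ((D * M ^ 2) ^ (m + 1) * t),
        C (v1 + j * ((D * M ^ 2) ^ (m + 1) * t) + x) (v2 + y)) +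
      2 * ((D * M ^ 2) ^ (m + 1) * t) ^ 2 ≤
    ∑ x ∈ Finset.range ((D * M ^ 2) ^ (m + 1) * t), ∑ y ∈ Finset.range ((D * M ^ 2) ^ (m + 1) * t),
        C (v1 + i * ((D * M ^ 2) ^ (m + 1) * t) + x) (v2 + y) := by
  set s := (D * M ^ 2) ^ (m + 1) * t with hs
  set w := ((Finset.range s).filter (ovr M D t m)).card with hw
  have hwD : D * w ≤ s := card_ovr M D t m (by omega) hM ht
  have hT : ∀ i < D * M ^ 2, ∀ x < s, v1 + i * s + x < T := by
    intro i hi x hx
    have : v1 + i * s + x < v1 + (D * M ^ 2) ^ (m + 2) * t := by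
      have h1 : (D * M ^ 2) ^ (m + 2) * t = (D * M ^ 2) * s := by rw [hs]; ring
      have h2 : (i + 1) * s ≤ (D * M ^ 2) * s := Nat.mul_le_mul_right _ hi
      have h3 : (i + 1) * s = i * s + s := by ring
      omega
    omega
  have hT2 : ∀ y < s, v2 + y < T := by intro y hy; omega
  have hsum : ∑ y ∈ Finset.range s, (if ovr M D t m y then 4 else 0) = 4 * w := by
    rw [← Finset.sum_filter, Finset.sum_const, smul_eq_mul, mul_comm]
  have hup : ∑ x ∈ Finset.range s, ∑ y ∈ Finset.range s, C (v1 + j * s + x) (v2 + y) ≤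
      ∑ x ∈ Finset.range s, ∑ y ∈ Finset.range s, ((u + 1) + if ovr M D t m y then 4 else 0) := by
    refine Finset.sum_le_sum fun x hx => Finset.sum_le_sum fun y hy => ?_
    rw [Finset.mem_range] at hx hy
    by_cases hov : ovr M D t m y
    · rw [if_pos hov]
      have := hhi _ _ (hT j hj x hx) (hT2 y hy)
      omega
    · rw [if_neg hov]
      have h1 := typ_cell (by omega) hM ht h hj hx hy hov
      rw [typ, if_neg] at h1
      · rw [← hs] at h1; omega
      · simp [hj2]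
  have hdn : ∑ x ∈ Finset.range s, ∑ _y ∈ Finset.range s, (u + 4) ≤
      ∑ x ∈ Finset.range s, ∑ y ∈ Finset.range s,
        (C (v1 + i * s + x) (v2 + y) + if ovr M D t m y then 4 else 0) := by
    refine Finset.sum_le_sum fun x hx => Finset.sum_le_sum fun y hy => ?_
    rw [Finset.mem_range] at hx hy
    by_cases hov : ovr M D t m y
    · rw [if_pos hov]
      have := hlo _ _ (hT i hi x hx) (hT2 y hy)
      omega
    · rw [if_neg hov]
      have h1 := typ_cell (by omega) hM ht h hi hx hy hov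
      rw [typ, if_pos] at h1
      · rw [← hs] at h1; omega
      · simp [hi2]
  simp only [Finset.sum_add_distrib, hsum, Finset.sum_const, Finset.card_range, smul_eq_mul]
    at hup hdn
  have h8 : 8 * w ≤ s := le_trans (Nat.mul_le_mul_right _ hD) hwD
  nlinarith [Nat.mul_le_mul_left s h8]

end Pool.Agent.Helper90.BK
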