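import Mathlib
import Pool.Agent.Helper90.BK3

set_option autoImplicit false

namespace Pool.Agent.Helper90.BK

open scoped RealInnerProductSpace

variable {H : Type*} [NormedAddCommGroup H] [InnerProductSpace ℝ H]

/-- A bi-Lipschitz bijection of `Y` onto a subgroup, together with block counts. -/
structure Ctx (L : ℝ) (q T u a1 a2 : ℕ) (Y : Set (ℤ × ℤ)) (Λ : AddSubgroup H)
    (f : ℤ × ℤ → H) : Prop where
  bij : Set.BijOn f Y Λ
  lip : ∀ y ∈ Y, ∀ y' ∈ Y, ‖f y - f y'‖ ≤ L * dist y y'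
  colip : ∀ y ∈ Y, ∀ y' ∈ Y, dist y y' ≤ L * ‖f y - f y'‖
  ha1 : a1 < q
  ha2 : a2 < q
  lat : ∀ i j : ℕ, i < T → j < T → (((q * i + a1 : ℕ) : ℤ), ((q * j + a2 : ℕ) : ℤ)) ∈ Y
  lo : ∀ i j, i < T → j < T → u ≤ cnt Y q i j
  hi : ∀ i j, i < T → j < T → cnt Y q i j ≤ u + 5

/-- the marked point in the block `(i,j)` -/
def pos (q a1 a2 i j : ℕ) : ℤ × ℤ := (((q * i + a1 : ℕ) : ℤ), ((q * j + a2 : ℕ) : ℤ))

lemma dist_pos_le (q a1 a2 i j i' j' n : ℕ) (h1 : i ≤ i' + n) (h2 : i' ≤ i + n)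
    (h3 : j ≤ j' + n) (h4 : j' ≤ j + n) :
    dist (pos q a1 a2 i j) (pos q a1 a2 i' j') ≤ q * n := by
  have key : ∀ a b c : ℕ, a ≤ b + n → b ≤ a + n →
      |(((q * a + c : ℕ) : ℤ) : ℝ) - (((q * b + c : ℕ) : ℤ) : ℝ)| ≤ q * n := by
    intro a b c ha hb
    have ha' : (a : ℝ) ≤ b + n := by exact_mod_cast ha
    have hb' : (b : ℝ) ≤ a + n := by exact_mod_cast hb
    push_cast
    have : (q : ℝ) * a + c - (q * b + c) = q * (a - b) := by ring
    rw [this, abs_mul, Nat.abs_cast]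
    apply mul_le_mul_of_nonneg_left _ (Nat.cast_nonneg _)
    rw [abs_le]; constructor <;> linarith
  rw [Prod.dist_eq]
  apply max_le
  · rw [Int.dist_eq]; exact key _ _ _ h1 h2
  · rw [Int.dist_eq]; exact key _ _ _ h3 h4

lemma dist_pos_eq (q a1 a2 i j n : ℕ) :
    dist (pos q a1 a2 (i + n) j) (pos q a1 a2 i j) = q * n := by
  rw [Prod.dist_eq, Int.dist_eq, Int.dist_eq]
  simp only [pos]
  push_cast
  have h1 : (q : ℝ) * (i + n) + a1 - (q * i + a1) = q * n := by ring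
  rw [h1, sub_self, abs_zero, abs_of_nonneg (by positivity), max_eq_left (by positivity)]

/-- the numerical conditions on the parameters -/
structure Params (L : ℝ) (q M D : ℕ) (k : ℝ) : Prop where
  hL : 1 ≤ L
  hq : 0 < q
  hM : 0 < M
  hD : 8 ≤ D
  hk : 0 < k
  hML : 16 * L ^ 2 * q ^ 2 ≤ M
  hk2 : 8 * L ^ 2 * M ^ 2 * (2 * k) ≤ (1 / (32 * L * q ^ 2)) ^ 2
  hR : 1 ≤ k * ((D * M ^ 2 : ℕ) - 1 : ℝ)

theorem main_step {L : ℝ} {q T u a1 a2 : ℕ} {Y : Set (ℤ × ℤ)} {Λ : AddSubgroup H}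
    {f : ℤ × ℤ → H} (ctx : Ctx L q T u a1 a2 Y Λ f) {M D : ℕ} {k : ℝ}
    (hp : Params L q M D k) {t : ℕ} (ht : 0 < t) (m v1 v2 : ℕ)
    (hv1 : v1 + (D * M ^ 2) ^ (m + 2) * t < T) (hv2 : v2 + (D * M ^ 2) ^ (m + 1) * t ≤ T)
    (hpres : Present (cnt Y q) u M D t (m + 1) v1 v2) (A : ℝ) (hA : 0 < A)
    (hA2 : (1 + k) * A ≤ 2 * L)
    (IH : ∀ w1 w2, w1 + (D * M ^ 2) ^ (m + 1) * t < T → w2 + (D * M ^ 2) ^ m * t ≤ T →
      Present (cnt Y q) u M D t m w1 w2 →
      ‖f (pos q a1 a2 (w1 + (D * M ^ 2) ^ (m + 1) * t) w2) - f (pos q a1 a2 w1 w2)‖ <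
        (1 + k) * A * (q * ((D * M ^ 2) ^ (m + 1) * t : ℕ))) :
    ‖f (pos q a1 a2 (v1 + (D * M ^ 2) ^ (m + 2) * t) v2) - f (pos q a1 a2 v1 v2)‖ <
      A * (q * ((D * M ^ 2) ^ (m + 2) * t : ℕ)) := by
  classical
  obtain ⟨hL, hq, hM, hD, hk, hML, hk2, hR⟩ := hp
  by_contra hcon
  rw [not_lt] at hcon
  set R := D * M ^ 2 with hRdef
  set g := D * R ^ m with hg
  set S := R ^ (m + 1) * t with hS
  have hRpos : 0 < R := by positivity
  have hR8 : 8 ≤ R := by
    rw [hRdef]; nlinarith [Nat.one_le_pow 2 M hM]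
  have hSg : S = M ^ 2 * (g * t) := by rw [hS, hg, hRdef]; ring
  have hSpos : 0 < S := by positivity
  have hRS : R ^ (m + 2) * t = R * S := by rw [hS]; ring
  -- the marked points
  let X : ℕ → (Fin M × Fin M) → ℕ × ℕ := fun i c =>
    (v1 + (i * R ^ (m + 1) + c.1 * (M * g)) * t, v2 + ((c.2 * M + c.1) * g) * t)
  let F : ℕ → (Fin M × Fin M) → H := fun i c => f (pos q a1 a2 (X i c).1 (X i c).2)
  have hoff1 : ∀ c : Fin M × Fin M, (c.1 : ℕ) * (M * g) * t + M * g * t ≤ S := by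
    intro c
    have h1 : (c.1 : ℕ) + 1 ≤ M := c.1.2
    calc (c.1 : ℕ) * (M * g) * t + M * g * t = (c.1 + 1) * (M * (g * t)) := by ring
      _ ≤ M * (M * (g * t)) := Nat.mul_le_mul_right _ h1
      _ = S := by rw [hSg]; ring
  have hoff2 : ∀ c : Fin M × Fin M, (((c.2 : ℕ) * M + c.1) * g) * t + g * t ≤ S := by
    intro c
    have h1 : (c.1 : ℕ) + 1 ≤ M := c.1.2
    have h2 : (c.2 : ℕ) + 1 ≤ M := c.2.2
    have h3 : (c.2 : ℕ) * M + c.1 + 1 ≤ M ^ 2 := by
      calc (c.2 : ℕ) * M + c.1 + 1 ≤ c.2 * M + M := by omega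
        _ = (c.2 + 1) * M := by ring
        _ ≤ M * M := Nat.mul_le_mul_right _ h2
        _ = M ^ 2 := by ring
    calc (((c.2 : ℕ) * M + c.1) * g) * t + g * t = (c.2 * M + c.1 + 1) * (g * t) := by ring
      _ ≤ M ^ 2 * (g * t) := Nat.mul_le_mul_right _ h3
      _ = S := hSg.symm
  have hX1 : ∀ i c, (X i c).1 = v1 + i * S + (c.1 : ℕ) * (M * g) * t := by
    intro i c; simp only [X]; rw [hS]; ring
  have hX2 : ∀ i c, (X i c).2 = v2 + (((c.2 : ℕ) * M + c.1) * g) * t := by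
    intro i c; rfl
  have hXlt : ∀ i < R, ∀ c, (X i c).1 < T ∧ (X i c).2 < T := by
    intro i hi c
    have h1 := hoff1 c
    have h2 := hoff2 c
    have h3 : (i + 1) * S ≤ R * S := Nat.mul_le_mul_right _ hi
    have h4 : (i + 1) * S = i * S + S := by ring
    have hgt : 0 < g * t := by positivity
    constructor
    · rw [hX1]; rw [hRS] at hv1; omega
    · rw [hX2]; omega
  have hmem : ∀ i < R, ∀ c, pos q a1 a2 (X i c).1 (X i c).2 ∈ Y := by
    intro i hi c
    exact ctx.lat _ _ (hXlt i hi c).1 (hXlt i hi c).2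
  have hstep : ∀ i < R - 1, ∀ c, ‖F (i + 1) c - F i c‖ ≤ (1 + k) * A * (q * S) := by
    intro i hi c
    have hi' : i + 1 < R := by omega
    have hsub := present_sub (by omega) hM ht hpres (i := i) (p := c.1) (r := c.2) hi' c.1.2 c.2.2
    have h1 := IH (X i c).1 (X i c).2 ?_ ?_ hsub
    · have h2 : (X i c).1 + R ^ (m + 1) * t = (X (i + 1) c).1 := by
        rw [hX1, hX1, ← hS]; ring
      have h3 : (X i c).2 = (X (i + 1) c).2 := rfl
      rw [h2] at h1
      simp only [F]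
      rw [← h3]
      exact h1.le
    · have h2 : (X i c).1 + R ^ (m + 1) * t = (X (i + 1) c).1 := by
        rw [hX1, hX1, ← hS]; ring
      rw [h2]
      exact (hXlt (i + 1) hi' c).1
    · have h2 := hoff2 c
      have h4 : R ^ m * t ≤ g * t := Nat.mul_le_mul_right _ (by
        rw [hg]; exact Nat.le_mul_of_pos_left _ (by omega))
      rw [hX2]; omega
  -- endpoints
  set Z : H := f (pos q a1 a2 (v1 + R ^ (m + 2) * t) v2) - f (pos q a1 a2 v1 v2) with hZ
  have hM0 : Nonempty (Fin M) := ⟨⟨0, hM⟩⟩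
  have hendY : pos q a1 a2 (v1 + R ^ (m + 2) * t) v2 ∈ Y :=
    ctx.lat _ _ hv1 (by omega)
  have hstY : pos q a1 a2 v1 v2 ∈ Y := ctx.lat _ _ (by omega) (by omega)
  have hn1 : ((R - 1 : ℕ) : ℝ) + 1 = R := by
    rw [Nat.cast_sub (by omega)]; push_cast; ring
  have hend : ∀ c, ‖(F (R - 1) c - F 0 c) - Z‖ ≤ 2 * L * (q * S) := by
    intro c
    have e1 : (F (R - 1) c - F 0 c) - Z =
        (F (R - 1) c - f (pos q a1 a2 (v1 + R ^ (m + 2) * t) v2)) -
          (F 0 c - f (pos q a1 a2 v1 v2)) := by rw [hZ]; abel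
    have h1 : ‖F (R - 1) c - f (pos q a1 a2 (v1 + R ^ (m + 2) * t) v2)‖ ≤ L * (q * S) := by
      refine (ctx.lip _ (hmem (R - 1) (by omega) c) _ hendY).trans ?_
      apply mul_le_mul_of_nonneg_left _ (by linarith)
      have h2 := hoff1 c
      have h3 := hoff2 c
      have h4 : (R - 1) * S + S = R * S := by
        rw [← Nat.succ_mul]; congr 1; omega
      apply dist_pos_le
      · rw [hX1, hRS]; omega
      · rw [hX1, hRS]; omega
      · rw [hX2]; omega
      · rw [hX2]; omega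
    have h2 : ‖F 0 c - f (pos q a1 a2 v1 v2)‖ ≤ L * (q * S) := by
      refine (ctx.lip _ (hmem 0 (by omega) c) _ hstY).trans ?_
      apply mul_le_mul_of_nonneg_left _ (by linarith)
      have h2 := hoff1 c
      have h3 := hoff2 c
      apply dist_pos_le
      · rw [hX1]; omega
      · rw [hX1]; omega
      · rw [hX2]; omega
      · rw [hX2]; omega
    rw [e1]
    calc _ ≤ _ := norm_sub_le _ _
      _ ≤ L * (q * S) + L * (q * S) := add_le_add h1 h2
      _ = 2 * L * (q * S) := by ring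
  have hqS : (0 : ℝ) < q * S := by positivity
  obtain ⟨i, hi, e, he⟩ := pigeon (R - 1) (by omega) F Z A k (q * S) L hA hk hqS hstep
    (by rw [hn1]; refine le_trans (le_of_eq ?_) hcon; rw [hRS]; push_cast; ring) hend
  -- closeness of steps
  set η : ℝ := 1 / (32 * L * q ^ 2) with hη
  have hqr : (1 : ℝ) ≤ q := by exact_mod_cast hq
  have hηpos : 0 < η := by positivity
  have hclose : ∀ c, ‖(F (i + 1) c - F i c) - e‖ ≤ η * (q * S) := by
    intro c
    have h1 := he c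
    have hAL : A ≤ 2 * L := by nlinarith
    have hnR : (2 * L / ((R - 1 : ℕ) : ℝ)) ≤ 2 * L * k := by
      have h2 : (0 : ℝ) < ((R - 1 : ℕ) : ℝ) := by
        have : 0 < R - 1 := by omega
        exact_mod_cast this
      rw [div_le_iff₀ h2]
      have h3 : ((R - 1 : ℕ) : ℝ) = (R : ℝ) - 1 := by linarith
      rw [h3]
      nlinarith
    have hcard : (Fintype.card (Fin M × Fin M) : ℝ) = M ^ 2 := by
      rw [Fintype.card_prod, Fintype.card_fin]; push_cast; ring
    rw [hcard] at h1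
    have h5 : k * A + 2 * L / ((R - 1 : ℕ) : ℝ) ≤ 4 * L * k := by nlinarith
    have h6 : ‖(F (i + 1) c - F i c) - e‖ ^ 2 ≤ (η * (q * S)) ^ 2 := by
      refine h1.trans ?_
      have h7 : (0 : ℝ) ≤ M ^ 2 := by positivity
      have h8 : (M : ℝ) ^ 2 * ((k * A + 2 * L / ((R - 1 : ℕ) : ℝ)) * (q * S)) ≤
          M ^ 2 * (4 * L * k * (q * S)) := by
        apply mul_le_mul_of_nonneg_left _ h7
        exact mul_le_mul_of_nonneg_right h5 hqS.le
      have h9 : 2 * ((1 + k) * A * (q * S)) ≤ 2 * (2 * L * (q * S)) := by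
        have := mul_le_mul_of_nonneg_right hA2 hqS.le
        linarith
      have h10 : (0 : ℝ) ≤ M ^ 2 * (4 * L * k * (q * S)) := by positivity
      have h11 : (0 : ℝ) ≤ 2 * ((1 + k) * A * (q * S)) := by positivity
      calc 2 * ((1 + k) * A * (q * S)) *
            ((M : ℝ) ^ 2 * ((k * A + 2 * L / ((R - 1 : ℕ) : ℝ)) * (q * S)))
          ≤ 2 * ((1 + k) * A * (q * S)) * (M ^ 2 * (4 * L * k * (q * S))) :=
            mul_le_mul_of_nonneg_left h8 h11
        _ ≤ 2 * (2 * L * (q * S)) * (M ^ 2 * (4 * L * k * (q * S))) :=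
            mul_le_mul_of_nonneg_right h9 h10
        _ = 8 * L ^ 2 * M ^ 2 * (2 * k) * (q * S) ^ 2 := by ring
        _ ≤ η ^ 2 * (q * S) ^ 2 := mul_le_mul_of_nonneg_right hk2 (by positivity)
        _ = (η * (q * S)) ^ 2 := by ring
    exact le_of_sq_le_sq h6 (by positivity)
  -- boxes
  set E : ℕ := ⌊(S : ℝ) / (8 * q)⌋₊ with hE
  have hSr : (0 : ℝ) < S := by exact_mod_cast hSpos
  have hEle : (E : ℝ) ≤ S / (8 * q) := Nat.floor_le (by positivity)
  let Box : ℕ → Finset (ℤ × ℤ) := fun j =>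
    (Finset.Ico (q * (v1 + j * S : ℕ) : ℤ) (q * (v1 + j * S : ℕ) + q * S)) ×ˢ
      (Finset.Ico (q * v2 : ℤ) (q * v2 + q * S))
  let Big : ℕ → Finset (ℤ × ℤ) := fun j =>
    (Finset.Ico (q * (v1 + j * S : ℕ) - E : ℤ) (q * (v1 + j * S : ℕ) + q * S + E)) ×ˢ
      (Finset.Ico (q * v2 - E : ℤ) (q * v2 + q * S + E))
  have near : ∀ j, ∀ y ∈ Box j, ∃ c, dist y (pos q a1 a2 (X j c).1 (X j c).2) ≤
      q * (M * g * t : ℕ) := by
    intro j y hy
    simp only [Box, Finset.mem_product, Finset.mem_Ico] at hy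
    obtain ⟨⟨hy1, hy2⟩, hy3, hy4⟩ := hy
    set b : ℕ := q * (M * g * t) with hb
    have hbpos : 0 < b := by positivity
    obtain ⟨Y1, hY1⟩ : ∃ Y1 : ℕ, y.1 = (q * (v1 + j * S : ℕ) : ℤ) + Y1 :=
      ⟨(y.1 - (q * (v1 + j * S : ℕ) : ℤ)).toNat, by omega⟩
    obtain ⟨Y2, hY2⟩ : ∃ Y2 : ℕ, y.2 = (q * v2 : ℤ) + Y2 :=
      ⟨(y.2 - (q * v2 : ℤ)).toNat, by omega⟩
    have hbS : b * M = q * S := by rw [hb, hSg]; ring
    have hY1lt : Y1 < b * M := by
      rw [hbS]
      have : (Y1 : ℤ) < q * S := by linarith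
      exact_mod_cast this
    have hY2lt : Y2 < b * M := by
      rw [hbS]
      have : (Y2 : ℤ) < q * S := by linarith
      exact_mod_cast this
    have hc1 : Y1 / b < M := by rw [Nat.div_lt_iff_lt_mul hbpos, mul_comm]; exact hY1lt
    have hc2 : Y2 / b < M := by rw [Nat.div_lt_iff_lt_mul hbpos, mul_comm]; exact hY2lt
    refine ⟨(⟨Y1 / b, hc1⟩, ⟨Y2 / b, hc2⟩), ?_⟩
    have hd1 := Nat.div_add_mod Y1 b
    have hd2 := Nat.div_add_mod Y2 b
    have hm1 := Nat.mod_lt Y1 hbpos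
    have hm2 := Nat.mod_lt Y2 hbpos
    have hqb : q ≤ b := by
      rw [hb]; exact Nat.le_mul_of_pos_right _ (by positivity)
    have ha1 := ctx.ha1
    have ha2 := ctx.ha2
    -- second coordinate offset
    have hoff : q * ((Y1 / b) * (g * t)) + a2 < b := by
      have h1 : Y1 / b + 1 ≤ M := hc1
      have h2 : q * ((Y1 / b + 1) * (g * t)) ≤ q * (M * (g * t)) :=
        Nat.mul_le_mul_left _ (Nat.mul_le_mul_right _ h1)
      have h3 : q * ((Y1 / b + 1) * (g * t)) = q * ((Y1 / b) * (g * t)) + q * (g * t) := by ring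
      have h4 : q * (M * (g * t)) = b := by rw [hb]; ring
      have h5 : q ≤ q * (g * t) := Nat.le_mul_of_pos_right _ (by positivity)
      omega
    have e1 : (pos q a1 a2 (X j (⟨Y1 / b, hc1⟩, ⟨Y2 / b, hc2⟩)).1
        (X j (⟨Y1 / b, hc1⟩, ⟨Y2 / b, hc2⟩)).2) =
        ((q * (v1 + j * S : ℕ) : ℤ) + (b * (Y1 / b) + a1 : ℕ),
          (q * v2 : ℤ) + (b * (Y2 / b) + (q * ((Y1 / b) * (g * t)) + a2) : ℕ)) := by
      rw [hX1, hX2]
      simp only [pos, Prod.mk.injEq]
      constructor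
      · have : q * (v1 + j * S + Y1 / b * (M * g) * t) + a1 =
            q * (v1 + j * S) + (b * (Y1 / b) + a1) := by rw [hb]; ring
        rw [this]; push_cast; ring
      · have : q * (v2 + (Y2 / b * M + Y1 / b) * g * t) + a2 =
            q * v2 + (b * (Y2 / b) + (q * ((Y1 / b) * (g * t)) + a2)) := by rw [hb]; ring
        rw [this]; push_cast; ring
    rw [e1, Prod.dist_eq, Int.dist_eq, Int.dist_eq, hY1, hY2]
    have hbcast : (q : ℝ) * (M * g * t : ℕ) = (b : ℝ) := by rw [hb]; push_cast; ring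
    rw [hbcast]
    apply max_le
    · have h1 : (((q * (v1 + j * S : ℕ) : ℤ) + (Y1 : ℤ) : ℤ) : ℝ) -
          (((q * (v1 + j * S : ℕ) : ℤ) + ((b * (Y1 / b) + a1 : ℕ) : ℤ) : ℤ) : ℝ) =
          ((Y1 : ℤ) - ((b * (Y1 / b) + a1 : ℕ) : ℤ) : ℤ) := by push_cast; ring
      rw [h1]
      have h2 : |(Y1 : ℤ) - ((b * (Y1 / b) + a1 : ℕ) : ℤ)| ≤ b := by
        rw [abs_le]; constructor <;> omega
      rw [← Int.cast_abs]
      exact_mod_cast h2
    · have h1 : (((q * v2 : ℤ) + (Y2 : ℤ) : ℤ) : ℝ) -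
          (((q * v2 : ℤ) + ((b * (Y2 / b) + (q * ((Y1 / b) * (g * t)) + a2) : ℕ) : ℤ) : ℤ) : ℝ) =
          ((Y2 : ℤ) - ((b * (Y2 / b) + (q * ((Y1 / b) * (g * t)) + a2) : ℕ) : ℤ) : ℤ) := by
        push_cast; ring
      rw [h1]
      have h2 : |(Y2 : ℤ) - ((b * (Y2 / b) + (q * ((Y1 / b) * (g * t)) + a2) : ℕ) : ℤ)| ≤ b := by
        rw [abs_le]; constructor <;> omega
      rw [← Int.cast_abs]
      exact_mod_cast h2
  have hposbox : ∀ j c, (q * (v1 + j * S : ℕ) : ℤ) ≤ (pos q a1 a2 (X j c).1 (X j c).2).1 ∧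
      (pos q a1 a2 (X j c).1 (X j c).2).1 < (q * (v1 + j * S : ℕ) : ℤ) + q * S ∧
      (q * v2 : ℤ) ≤ (pos q a1 a2 (X j c).1 (X j c).2).2 ∧
      (pos q a1 a2 (X j c).1 (X j c).2).2 < (q * v2 : ℤ) + q * S := by
    intro j c
    have h1 := hoff1 c
    have h2 := hoff2 c
    have hgt : 1 ≤ g * t := by
      have : 0 < g * t := by positivity
      exact this
    have hMgt : 1 ≤ M * g * t := by
      have : 0 < M * g * t := by positivity
      exact this
    have ha1 := ctx.ha1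
    have ha2 := ctx.ha2
    have h3 : q * ((c.1 : ℕ) * (M * g) * t + 1) ≤ q * S := Nat.mul_le_mul_left _ (by omega)
    have h4 : q * ((((c.2 : ℕ) * M + c.1) * g) * t + 1) ≤ q * S := Nat.mul_le_mul_left _ (by omega)
    have e1 : (pos q a1 a2 (X j c).1 (X j c).2).1 =
        ((q * (v1 + j * S) + (q * ((c.1 : ℕ) * (M * g) * t) + a1) : ℕ) : ℤ) := by
      simp only [pos]; rw [hX1]; congr 1; ring
    have e2 : (pos q a1 a2 (X j c).1 (X j c).2).2 =
        ((q * v2 + (q * ((((c.2 : ℕ) * M + c.1) * g) * t) + a2) : ℕ) : ℤ) := by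
      simp only [pos]; rw [hX2]; congr 1; ring
    have h3' : q * ((c.1 : ℕ) * (M * g) * t + 1) = q * ((c.1 : ℕ) * (M * g) * t) + q := by ring
    have h4' : q * ((((c.2 : ℕ) * M + c.1) * g) * t + 1) =
        q * ((((c.2 : ℕ) * M + c.1) * g) * t) + q := by ring
    rw [e1, e2]
    refine ⟨?_, ?_, ?_, ?_⟩
    · push_cast; nlinarith [Nat.zero_le (q * ((c.1 : ℕ) * (M * g) * t) + a1)]
    · have : q * (v1 + j * S) + (q * ((c.1 : ℕ) * (M * g) * t) + a1) < q * (v1 + j * S) + q * S := by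
        omega
      exact_mod_cast this
    · push_cast; nlinarith [Nat.zero_le (q * ((((c.2 : ℕ) * M + c.1) * g) * t) + a2)]
    · have : q * v2 + (q * ((((c.2 : ℕ) * M + c.1) * g) * t) + a2) < q * v2 + q * S := by
        omega
      exact_mod_cast this
  have transfer : ∀ j < R, ∀ j' < R, ∀ W : H,
      (∀ c, ‖(F j c - F j' c) - W‖ ≤ 2 * (η * (q * S))) →
      ∀ y ∈ Y, y ∈ Box j → ∀ y' ∈ Y, f y' = f y - W → y' ∈ Big j' := by
    intro j hj j' hj' W hW y hy hyB y' hy' hyy'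
    obtain ⟨c, hc⟩ := near j y hyB
    have h1 : dist y' (pos q a1 a2 (X j' c).1 (X j' c).2) ≤
        L * ‖f y' - F j' c‖ := ctx.colip _ hy' _ (hmem j' hj' c)
    have h2 : f y' - F j' c = (f y - F j c) + ((F j c - F j' c) - W) := by rw [hyy']; abel
    have h3 : ‖f y - F j c‖ ≤ L * (q * (M * g * t : ℕ)) :=
      (ctx.lip _ hy _ (hmem j hj c)).trans (mul_le_mul_of_nonneg_left hc (by linarith))
    have h4 : ‖f y' - F j' c‖ ≤ L * (q * (M * g * t : ℕ)) + 2 * (η * (q * S)) := by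
      rw [h2]; exact (norm_add_le _ _).trans (add_le_add h3 (hW c))
    have hMr : (0 : ℝ) < M := by exact_mod_cast hM
    have hSM : ((M * g * t : ℕ) : ℝ) = S / M := by
      rw [eq_div_iff hMr.ne']
      have : (M * g * t) * M = S := by rw [hSg]; ring
      exact_mod_cast this
    have hqpos : (0 : ℝ) < q := by linarith
    have h5 : L * (L * (q * (M * g * t : ℕ)) + 2 * (η * (q * S))) ≤ S / (8 * q) := by
      rw [hSM]
      have h6 : L * (L * (q * (S / M))) ≤ S / (16 * q) := by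
        rw [le_div_iff₀ (by positivity)]
        have : L * (L * (q * (S / M))) * (16 * q) = (16 * L ^ 2 * q ^ 2) * (S / M) := by ring
        rw [this]
        calc (16 * L ^ 2 * q ^ 2) * (S / M) ≤ M * (S / M) :=
              mul_le_mul_of_nonneg_right hML (by positivity)
          _ = S := by field_simp
      have h7 : L * (2 * (η * (q * S))) = S / (16 * q) := by
        rw [hη]; field_simp; ring
      have h8 : (S : ℝ) / (16 * q) + S / (16 * q) = S / (8 * q) := by field_simp; ring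
      calc L * (L * (q * (S / M)) + 2 * (η * (q * S)))
          = L * (L * (q * (S / M))) + L * (2 * (η * (q * S))) := by ring
        _ ≤ S / (16 * q) + S / (16 * q) := add_le_add h6 h7.le
        _ = S / (8 * q) := h8
    have h9 : dist y' (pos q a1 a2 (X j' c).1 (X j' c).2) ≤ S / (8 * q) :=
      h1.trans ((mul_le_mul_of_nonneg_left h4 (by linarith)).trans h5)
    rw [Prod.dist_eq, Int.dist_eq, Int.dist_eq] at h9
    have h10 := (le_max_left _ _).trans h9
    have h11 := (le_max_right _ _).trans h9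
    have toE : ∀ a b : ℤ, |(a : ℝ) - b| ≤ S / (8 * q) → |a - b| ≤ E := by
      intro a b hab
      have : ((a - b).natAbs : ℝ) ≤ S / (8 * q) := by
        rw [Nat.cast_natAbs]; push_cast; exact hab
      have h12 : (a - b).natAbs ≤ E := Nat.le_floor this
      rw [Int.abs_eq_natAbs]; exact_mod_cast h12
    have h12 := abs_le.mp (toE _ _ h10)
    have h13 := abs_le.mp (toE _ _ h11)
    obtain ⟨p1, p2, p3, p4⟩ := hposbox j' c
    simp only [Big, Finset.mem_product, Finset.mem_Ico]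
    refine ⟨⟨?_, ?_⟩, ?_, ?_⟩ <;> linarith [h12.1, h12.2, h13.1, h13.2]
  have hbigcard : ∀ j, ((Big j).filter (· ∈ Y)).card ≤
      boxcnt Y q (v1 + j * S) v2 S + ((q * S + 2 * E) ^ 2 - (q * S) ^ 2) := by
    intro j
    have hsub : Box j ⊆ Big j := by
      intro y hy
      simp only [Box, Big, Finset.mem_product, Finset.mem_Ico] at hy ⊢
      have : (0 : ℤ) ≤ E := by positivity
      refine ⟨⟨?_, ?_⟩, ?_, ?_⟩ <;> linarith [hy.1.1, hy.1.2, hy.2.1, hy.2.2]
    have h1 : (Big j).filter (· ∈ Y) ⊆ (Box j).filter (· ∈ Y) ∪ (Big j \ Box j) := by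
      intro y hy
      rw [Finset.mem_filter] at hy
      rw [Finset.mem_union, Finset.mem_filter, Finset.mem_sdiff]
      by_cases h : y ∈ Box j
      · exact Or.inl ⟨h, hy.2⟩
      · exact Or.inr ⟨hy.1, h⟩
    have h2 : (Big j).card = (q * S + 2 * E) ^ 2 := by
      simp only [Big, Finset.card_product, Int.card_Ico]
      have e1 : (q * (v1 + j * S : ℕ) + q * S + E - (q * (v1 + j * S : ℕ) - E) : ℤ) =
          ((q * S + 2 * E : ℕ) : ℤ) := by push_cast; ring
      have e2 : (q * v2 + q * S + E - (q * v2 - E) : ℤ) =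
          ((q * S + 2 * E : ℕ) : ℤ) := by push_cast; ring
      rw [e1, e2, Int.toNat_natCast, sq]
    have h3 : (Box j).card = (q * S) ^ 2 := by
      simp only [Box, Finset.card_product, Int.card_Ico]
      have e1 : (q * (v1 + j * S : ℕ) + q * S - q * (v1 + j * S : ℕ) : ℤ) =
          ((q * S : ℕ) : ℤ) := by push_cast; ring
      have e2 : (q * v2 + q * S - q * v2 : ℤ) =
          ((q * S : ℕ) : ℤ) := by push_cast; ring
      rw [e1, e2, Int.toNat_natCast, sq]
    calc ((Big j).filter (· ∈ Y)).card ≤ _ := Finset.card_le_card h1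
      _ ≤ ((Box j).filter (· ∈ Y)).card + (Big j \ Box j).card := Finset.card_union_le _ _
      _ = boxcnt Y q (v1 + j * S) v2 S + ((q * S + 2 * E) ^ 2 - (q * S) ^ 2) := by
        rw [Finset.card_sdiff_of_subset hsub, h2, h3]
        congr 1
  have hnum : (q * S + 2 * E) ^ 2 - (q * S) ^ 2 < 2 * S ^ 2 := by
    have h1 : (q * S + 2 * E) ^ 2 < (q * S) ^ 2 + 2 * S ^ 2 := by
      have h2 : ((q : ℝ) * S + 2 * E) ^ 2 < (q * S) ^ 2 + 2 * S ^ 2 := by
        have hq0 : (0 : ℝ) < q := by linarith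
        have h3 : (q : ℝ) * E ≤ S / 8 := by
          have := mul_le_mul_of_nonneg_left hEle hq0.le
          refine this.trans (le_of_eq ?_)
          field_simp
        have h4 : (E : ℝ) ≤ S / 8 := by
          have h5 : (E : ℝ) ≤ q * E := by
            have : (0 : ℝ) ≤ E := Nat.cast_nonneg _
            nlinarith
          linarith
        have h6 : (0 : ℝ) ≤ E := Nat.cast_nonneg _
        nlinarith
      exact_mod_cast h2
    have h7 : 0 < S ^ 2 := by positivity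
    omega
  -- parity
  have hc0 : ∃ c0 : Fin M × Fin M, True := ⟨(⟨0, hM⟩, ⟨0, hM⟩), trivial⟩
  obtain ⟨c0, -⟩ := hc0
  have hi1 : i < R := by omega
  have hi2 : i + 1 < R := by omega
  set V : H := F (i + 1) c0 - F i c0 with hV
  have hVmem : V ∈ Λ := Λ.sub_mem (ctx.bij.mapsTo (hmem (i + 1) hi2 c0))
    (ctx.bij.mapsTo (hmem i hi1 c0))
  have hVc : ∀ c, ‖(F (i + 1) c - F i c) - V‖ ≤ 2 * (η * (q * S)) := by
    intro c
    have h1 : (F (i + 1) c - F i c) - V =
        ((F (i + 1) c - F i c) - e) - ((F (i + 1) c0 - F i c0) - e) := by rw [hV]; abel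
    rw [h1]
    calc _ ≤ _ := norm_sub_le _ _
      _ ≤ η * (q * S) + η * (q * S) := add_le_add (hclose c) (hclose c0)
      _ = _ := by ring
  have hfin : ∀ j < R, ∀ j' < R, j % 2 = 1 → j' % 2 = 0 → ∀ W ∈ Λ,
      (∀ c, ‖(F j c - F j' c) - W‖ ≤ 2 * (η * (q * S))) → False := by
    intro j hj j' hj' hj1 hj0 W hWm hW
    have h1 := count_le ctx.bij W hWm (Box j) (Big j') (transfer j hj j' hj' W hW)
    have h2 := hbigcard j'
    have h3 := square_diff (T := T) hD hM ht hpres ctx.lo ctx.hi (by rw [← hRdef]; omega)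
      (by rw [← hRdef]; omega) hj hj1 hj' hj0
    rw [← hRdef, ← hS, ← boxcnt_eq, ← boxcnt_eq] at h3
    have h4 : ((Box j).filter (· ∈ Y)).card = boxcnt Y q (v1 + j * S) v2 S := by
      unfold boxcnt
      simp only [Box]
    omega
  rcases Nat.mod_two_eq_zero_or_one i with h0 | h1
  · exact hfin (i + 1) hi2 i hi1 (by omega) h0 V hVmem hVc
  · refine hfin i hi1 (i + 1) hi2 h1 (by omega) (-V) (Λ.neg_mem hVmem) fun c => ?_
    have h2 : (F i c - F (i + 1) c) - -V = -((F (i + 1) c - F i c) - V) := by abel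
    rw [h2, norm_neg]
    exact hVc c

end Pool.Agent.Helper90.BK
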