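import Mathlib
import Pool.Agent.Helper90.BK4

set_option autoImplicit false

namespace Pool.Agent.Helper90.BK

variable {H : Type*} [NormedAddCommGroup H] [InnerProductSpace ℝ H]

theorem induct {L : ℝ} {q T u a1 a2 : ℕ} {Y : Set (ℤ × ℤ)} {Λ : AddSubgroup H}
    {f : ℤ × ℤ → H} (ctx : Ctx L q T u a1 a2 Y Λ f) {M D : ℕ} {k : ℝ}
    (hp : Params L q M D k) {t : ℕ} (ht : 0 < t) (m : ℕ) :
    ∀ v1 v2, v1 + (D * M ^ 2) ^ (m + 1) * t < T → v2 + (D * M ^ 2) ^ m * t ≤ T →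
      Present (cnt Y q) u M D t m v1 v2 →
      ‖f (pos q a1 a2 (v1 + (D * M ^ 2) ^ (m + 1) * t) v2) - f (pos q a1 a2 v1 v2)‖ <
        2 * L / (1 + k) ^ m * (q * ((D * M ^ 2) ^ (m + 1) * t : ℕ)) := by
  have hL := hp.hL
  have hq := hp.hq
  have hM := hp.hM
  have hD := hp.hD
  have hk := hp.hk
  have hRpos : 0 < D * M ^ 2 := by positivity
  induction m with
  | zero =>
    intro v1 v2 h1 h2 _
    have hpos : (0 : ℝ) < q * ((D * M ^ 2) ^ (0 + 1) * t : ℕ) := by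
      have : 0 < (D * M ^ 2) ^ (0 + 1) * t := by positivity
      have h3 : (0 : ℝ) < ((D * M ^ 2) ^ (0 + 1) * t : ℕ) := by exact_mod_cast this
      have h4 : (0 : ℝ) < q := by exact_mod_cast hq
      positivity
    have hv2 : v2 < T := by
      have : 0 < (D * M ^ 2) ^ 0 * t := by positivity
      omega
    have h5 := ctx.lip _ (ctx.lat (v1 + (D * M ^ 2) ^ (0 + 1) * t) v2 h1 hv2) _
      (ctx.lat v1 v2 (by omega) hv2)
    have h6 := dist_pos_eq q a1 a2 v1 v2 ((D * M ^ 2) ^ (0 + 1) * t)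
    unfold pos at h6
    rw [h6] at h5
    unfold pos
    refine lt_of_le_of_lt h5 ?_
    rw [pow_zero, div_one]
    nlinarith
  | succ m ih =>
    intro v1 v2 h1 h2 h3
    have hk1 : (0 : ℝ) < (1 + k) ^ (m + 1) := by positivity
    have hk2 : (0 : ℝ) < (1 + k) ^ m := by positivity
    have hk3 : (1 : ℝ) ≤ (1 + k) ^ m := one_le_pow₀ (by linarith)
    have e1 : (1 + k) * (2 * L / (1 + k) ^ (m + 1)) = 2 * L / (1 + k) ^ m := by
      rw [pow_succ]; field_simp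
    apply main_step ctx hp ht m v1 v2 h1 h2 h3 (2 * L / (1 + k) ^ (m + 1)) (by positivity)
    · rw [e1, div_le_iff₀ hk2]; nlinarith
    · intro w1 w2 h4 h5 h6
      rw [e1]
      exact ih w1 w2 h4 h5 h6

variable (H) in
/-- **Discrete Burago–Kleiner theorem.** -/
theorem bk (L : ℝ) (hL : 1 ≤ L) (q : ℕ) (hq : 0 < q) :
    ∃ (κ : ℕ) (B : ℕ → ℕ → Bool), ∀ (t u a1 a2 : ℕ) (Y : Set (ℤ × ℤ)) (Λ : AddSubgroup H)
      (f : ℤ × ℤ → H), 0 < t → Set.BijOn f Y Λ →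
      (∀ y ∈ Y, ∀ y' ∈ Y, ‖f y - f y'‖ ≤ L * dist y y') →
      (∀ y ∈ Y, ∀ y' ∈ Y, dist y y' ≤ L * ‖f y - f y'‖) →
      a1 < q → a2 < q →
      (∀ i j : ℕ, i < 2 ^ κ * t → j < 2 ^ κ * t →
        (((q * i + a1 : ℕ) : ℤ), ((q * j + a2 : ℕ) : ℤ)) ∈ Y) →
      (∀ i j : ℕ, i < 2 ^ κ * t → j < 2 ^ κ * t → u ≤ cnt Y q i j ∧ cnt Y q i j ≤ u + 5 ∧
        typ u (B (i / t) (j / t)) (cnt Y q i j)) → False := by
  have hqr : (1 : ℝ) ≤ q := by exact_mod_cast hq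
  obtain ⟨μ, hμ⟩ := pow_unbounded_of_one_lt (16 * L ^ 2 * q ^ 2) (one_lt_two : (1 : ℝ) < 2)
  set M : ℕ := 2 ^ μ with hMdef
  have hM : 0 < M := by positivity
  have hMr : (0 : ℝ) < M := by exact_mod_cast hM
  set k : ℝ := (1 / (32 * L * q ^ 2)) ^ 2 / (16 * L ^ 2 * M ^ 2) with hkdef
  have hk : 0 < k := by positivity
  obtain ⟨δ, hδ⟩ := pow_unbounded_of_one_lt (max 8 (1 / k + 1)) (one_lt_two : (1 : ℝ) < 2)
  set D : ℕ := 2 ^ δ with hDdef
  have hDr : max 8 (1 / k + 1) < (D : ℝ) := by rw [hDdef]; push_cast; exact hδ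
  have hD : 8 ≤ D := by
    have : (8 : ℝ) < D := lt_of_le_of_lt (le_max_left _ _) hDr
    have h2 : (8 : ℕ) < D := by exact_mod_cast this
    omega
  have hDk : 1 / k + 1 < (D : ℝ) := lt_of_le_of_lt (le_max_right _ _) hDr
  have hp : Params L q M D k := by
    refine ⟨hL, hq, hM, hD, hk, ?_, ?_, ?_⟩
    · rw [hMdef]; push_cast; exact hμ.le
    · rw [hkdef]; apply le_of_eq; field_simp; ring
    · have h1 : (D : ℝ) ≤ ((D * M ^ 2 : ℕ) : ℝ) := by
        have : D ≤ D * M ^ 2 := Nat.le_mul_of_pos_right _ (by positivity)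
        exact_mod_cast this
      have h2 : 1 / k ≤ ((D * M ^ 2 : ℕ) - 1 : ℝ) := by linarith
      calc (1 : ℝ) = k * (1 / k) := by field_simp
        _ ≤ _ := mul_le_mul_of_nonneg_left h2 hk.le
  obtain ⟨m, hm⟩ := pow_unbounded_of_one_lt (2 * L ^ 2) (show (1 : ℝ) < 1 + k by linarith)
  set R : ℕ := D * M ^ 2 with hRdef
  have hRpow : R = 2 ^ (δ + 2 * μ) := by rw [hRdef, hDdef, hMdef]; ring
  have hRpos : 0 < R := by positivity
  refine ⟨(δ + 2 * μ) * (m + 1) + 1, fun I J => if I < R ^ (m + 1) ∧ J < R ^ m then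
    pat M D m I J else false, ?_⟩
  intro t u a1 a2 Y Λ f ht hbij hlip hcolip ha1 ha2 hlat hblk
  have hT : 2 ^ ((δ + 2 * μ) * (m + 1) + 1) * t = 2 * (R ^ (m + 1) * t) := by
    rw [pow_succ, pow_mul, ← hRpow]; ring
  rw [hT] at hlat hblk
  have ctx : Ctx L q (2 * (R ^ (m + 1) * t)) u a1 a2 Y Λ f :=
    ⟨hbij, hlip, hcolip, ha1, ha2, hlat, fun i j hi hj => (hblk i j hi hj).1,
      fun i j hi hj => (hblk i j hi hj).2.1⟩
  have hSpos : 0 < R ^ (m + 1) * t := by positivity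
  have hRR : R ^ m * t ≤ R ^ (m + 1) * t :=
    Nat.mul_le_mul_right _ (Nat.pow_le_pow_right hRpos (by omega))
  have hpres : Present (cnt Y q) u M D t m 0 0 := by
    intro x hx y hy
    rw [← hRdef] at hx hy
    have h1 := (hblk (0 + x) (0 + y) (by omega) (by omega)).2.2
    have hxt : x / t < R ^ (m + 1) := by rw [Nat.div_lt_iff_lt_mul ht]; exact hx
    have hyt : y / t < R ^ m := by rw [Nat.div_lt_iff_lt_mul ht]; exact hy
    rw [zero_add, zero_add] at h1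
    beta_reduce at h1
    rw [if_pos ⟨hxt, hyt⟩] at h1
    rw [zero_add, zero_add]
    exact h1
  have h1 := induct ctx hp ht m 0 0 (by rw [← hRdef]; omega) (by rw [← hRdef]; omega) hpres
  rw [← hRdef] at h1
  have h2 := hcolip _ (hlat (0 + R ^ (m + 1) * t) 0 (by omega) (by omega)) _
    (hlat 0 0 (by omega) (by omega))
  have h3 := dist_pos_eq q a1 a2 0 0 (R ^ (m + 1) * t)
  unfold pos at h3 h1
  rw [h3] at h2
  have hSr : (0 : ℝ) < (q : ℝ) * ((R ^ (m + 1) * t : ℕ) : ℝ) := by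
    have : (0 : ℝ) < ((R ^ (m + 1) * t : ℕ) : ℝ) := by exact_mod_cast hSpos
    positivity
  have hkm : (0 : ℝ) < (1 + k) ^ m := by positivity
  have h4 : L * (2 * L / (1 + k) ^ m * (q * ((R ^ (m + 1) * t : ℕ) : ℝ))) ≤
      q * ((R ^ (m + 1) * t : ℕ) : ℝ) := by
    have h5 : L * (2 * L / (1 + k) ^ m * (q * ((R ^ (m + 1) * t : ℕ) : ℝ))) =
        (2 * L ^ 2 / (1 + k) ^ m) * (q * ((R ^ (m + 1) * t : ℕ) : ℝ)) := by ring
    rw [h5]
    have h6 : 2 * L ^ 2 / (1 + k) ^ m ≤ 1 := by rw [div_le_one hkm]; exact hm.le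
    nlinarith
  have h7 := mul_lt_mul_of_pos_left h1 (show (0 : ℝ) < L by linarith)
  linarith

end Pool.Agent.Helper90.BK
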