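import Mathlib

set_option autoImplicit false
set_option linter.deprecated false

namespace Pool.Agent.Helper90.Geo

/-- four-dimensional Euclidean space -/
abbrev V4 := EuclideanSpace ℝ (Fin 4)

/-- the plane `E` -/
def EE (a : ℝ) : Submodule ℝ V4 where
  carrier := {x | x 2 = a * x 0 ∧ x 3 = a * x 1}
  add_mem' := by
    intro x y hx hy
    obtain ⟨h1, h2⟩ := hx
    obtain ⟨h3, h4⟩ := hy
    constructor
    · simp only [PiLp.add_apply]; rw [h1, h3]; ring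
    · simp only [PiLp.add_apply]; rw [h2, h4]; ring
  zero_mem' := by constructor <;> simp
  smul_mem' := by
    intro c x hx
    obtain ⟨h1, h2⟩ := hx
    constructor
    · simp only [PiLp.smul_apply, smul_eq_mul]; rw [h1]; ring
    · simp only [PiLp.smul_apply, smul_eq_mul]; rw [h2]; ring

/-- the plane `F` -/
def FF (a : ℝ) : Submodule ℝ V4 where
  carrier := {x | x 0 = -a * x 2 ∧ x 1 = -a * x 3}
  add_mem' := by
    intro x y hx hy
    obtain ⟨h1, h2⟩ := hx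
    obtain ⟨h3, h4⟩ := hy
    constructor
    · simp only [PiLp.add_apply]; rw [h1, h3]; ring
    · simp only [PiLp.add_apply]; rw [h2, h4]; ring
  zero_mem' := by constructor <;> simp
  smul_mem' := by
    intro c x hx
    obtain ⟨h1, h2⟩ := hx
    constructor
    · simp only [PiLp.smul_apply, smul_eq_mul]; rw [h1]; ring
    · simp only [PiLp.smul_apply, smul_eq_mul]; rw [h2]; ring

lemma mem_EE {a : ℝ} {x : V4} : x ∈ EE a ↔ x 2 = a * x 0 ∧ x 3 = a * x 1 := Iff.rfl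
lemma mem_FF {a : ℝ} {x : V4} : x ∈ FF a ↔ x 0 = -a * x 2 ∧ x 1 = -a * x 3 := Iff.rfl

/-- the component in `E` -/
noncomputable def PE (a : ℝ) (x : V4) : V4 :=
  WithLp.toLp 2 ![(x 0 + a * x 2) / (1 + a ^ 2), (x 1 + a * x 3) / (1 + a ^ 2),
    a * ((x 0 + a * x 2) / (1 + a ^ 2)), a * ((x 1 + a * x 3) / (1 + a ^ 2))]

/-- the component in `F` -/
noncomputable def PF (a : ℝ) (x : V4) : V4 :=
  WithLp.toLp 2 ![-a * ((x 2 - a * x 0) / (1 + a ^ 2)), -a * ((x 3 - a * x 1) / (1 + a ^ 2)),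
    (x 2 - a * x 0) / (1 + a ^ 2), (x 3 - a * x 1) / (1 + a ^ 2)]

lemma PE0 (a : ℝ) (x : V4) : PE a x 0 = (x 0 + a * x 2) / (1 + a ^ 2) := rfl
lemma PE1 (a : ℝ) (x : V4) : PE a x 1 = (x 1 + a * x 3) / (1 + a ^ 2) := rfl
lemma PE2 (a : ℝ) (x : V4) : PE a x 2 = a * ((x 0 + a * x 2) / (1 + a ^ 2)) := rfl
lemma PE3 (a : ℝ) (x : V4) : PE a x 3 = a * ((x 1 + a * x 3) / (1 + a ^ 2)) := rfl
lemma PF0 (a : ℝ) (x : V4) : PF a x 0 = -a * ((x 2 - a * x 0) / (1 + a ^ 2)) := rfl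
lemma PF1 (a : ℝ) (x : V4) : PF a x 1 = -a * ((x 3 - a * x 1) / (1 + a ^ 2)) := rfl
lemma PF2 (a : ℝ) (x : V4) : PF a x 2 = (x 2 - a * x 0) / (1 + a ^ 2) := rfl
lemma PF3 (a : ℝ) (x : V4) : PF a x 3 = (x 3 - a * x 1) / (1 + a ^ 2) := rfl

lemma PE_mem (a : ℝ) (x : V4) : PE a x ∈ EE a := ⟨by rw [PE2, PE0], by rw [PE3, PE1]⟩
lemma PF_mem (a : ℝ) (x : V4) : PF a x ∈ FF a := ⟨by rw [PF2, PF0], by rw [PF3, PF1]⟩

lemma PE_add_PF (a : ℝ) (x : V4) : PE a x + PF a x = x := by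
  have h : (1 + a ^ 2) ≠ 0 := by positivity
  ext i
  fin_cases i
  · show PE a x 0 + PF a x 0 = x 0
    rw [PE0, PF0]; field_simp; ring
  · show PE a x 1 + PF a x 1 = x 1
    rw [PE1, PF1]; field_simp; ring
  · show PE a x 2 + PF a x 2 = x 2
    rw [PE2, PF2]; field_simp; ring
  · show PE a x 3 + PF a x 3 = x 3
    rw [PE3, PF3]; field_simp; ring

lemma isCompl (a : ℝ) : IsCompl (EE a) (FF a) := by
  constructor
  · rw [Submodule.disjoint_def]
    intro x hx hx'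
    obtain ⟨h1, h2⟩ := hx
    obtain ⟨h3, h4⟩ := hx'
    have h : (1 + a ^ 2) ≠ 0 := by positivity
    have h0 : (1 + a ^ 2) * x 0 = 0 := by rw [h1] at h3; linear_combination h3
    have h0' : (1 + a ^ 2) * x 1 = 0 := by rw [h2] at h4; linear_combination h4
    have e0 : x 0 = 0 := (mul_eq_zero.1 h0).resolve_left h
    have e1 : x 1 = 0 := (mul_eq_zero.1 h0').resolve_left h
    ext i
    fin_cases i
    · exact e0
    · exact e1
    · show x 2 = 0
      rw [h1, e0, mul_zero]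
    · show x 3 = 0
      rw [h2, e1, mul_zero]
  · rw [codisjoint_iff, Submodule.eq_top_iff']
    intro x
    rw [Submodule.mem_sup]
    exact ⟨PE a x, PE_mem a x, PF a x, PF_mem a x, PE_add_PF a x⟩

lemma projE (a : ℝ) (x : V4) :
    (Submodule.linearProjOfIsCompl (EE a) (FF a) (isCompl a) x : V4) = PE a x := by
  have h1 : (Submodule.linearProjOfIsCompl (EE a) (FF a) (isCompl a) x) =
      (⟨PE a x, PE_mem a x⟩ : EE a) := by
    conv_lhs => rw [← PE_add_PF a x]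
    rw [map_add]
    have h2 := Submodule.projectionOnto_apply_left (isCompl a) (⟨PE a x, PE_mem a x⟩ : EE a)
    have h3 := Submodule.projectionOnto_apply_right (isCompl a) (⟨PF a x, PF_mem a x⟩ : FF a)
    have h2' : (Submodule.linearProjOfIsCompl (EE a) (FF a) (isCompl a)) (PE a x) =
      (⟨PE a x, PE_mem a x⟩ : EE a) := h2
    have h3' : (Submodule.linearProjOfIsCompl (EE a) (FF a) (isCompl a)) (PF a x) = 0 := h3
    rw [h2', h3', add_zero]
  rw [h1]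

lemma projF (a : ℝ) (x : V4) :
    Submodule.linearProjOfIsCompl (FF a) (EE a) (isCompl a).symm x =
      (⟨PF a x, PF_mem a x⟩ : FF a) := by
  conv_lhs => rw [← PE_add_PF a x]
  rw [map_add]
  have h2 := Submodule.projectionOnto_apply_left (isCompl a).symm (⟨PF a x, PF_mem a x⟩ : FF a)
  have h3 := Submodule.projectionOnto_apply_right (isCompl a).symm (⟨PE a x, PE_mem a x⟩ : EE a)
  have h2' : (Submodule.linearProjOfIsCompl (FF a) (EE a) (isCompl a).symm) (PF a x) =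
    (⟨PF a x, PF_mem a x⟩ : FF a) := h2
  have h3' : (Submodule.linearProjOfIsCompl (FF a) (EE a) (isCompl a).symm) (PE a x) = 0 := h3
  rw [h2', h3', zero_add]

/-- integer points -/
def IntPt (x : V4) : Prop :=
  ∀ i, ∃ z : ℤ, (EuclideanSpace.proj i : V4 →L[ℝ] ℝ) x = (z : ℝ)

lemma intPt_iff {x : V4} : IntPt x ↔ ∀ i, ∃ z : ℤ, x i = (z : ℝ) := Iff.rfl

lemma irr_zero {a : ℝ} (ha : Irrational a) {m n : ℤ} (h : (m : ℝ) + a * n = 0) : n = 0 ∧ m = 0 := by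
  by_cases hn : n = 0
  · subst hn
    simp at h
    exact ⟨rfl, by exact_mod_cast h⟩
  · exfalso
    have hn' : (n : ℝ) ≠ 0 := by exact_mod_cast hn
    apply ha
    refine ⟨(-m : ℚ) / n, ?_⟩
    push_cast
    rw [div_eq_iff hn']
    linarith

lemma PE_inj {a : ℝ} (ha : Irrational a) {x y : V4} (hx : IntPt x) (hy : IntPt y)
    (h : PE a x = PE a y) : x = y := by
  have hpos : (1 + a ^ 2) ≠ 0 := by positivity
  have h0 : PE a x 0 = PE a y 0 := by rw [h]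
  have h1 : PE a x 1 = PE a y 1 := by rw [h]
  rw [PE0, PE0, div_left_inj' hpos] at h0
  rw [PE1, PE1, div_left_inj' hpos] at h1
  rw [intPt_iff] at hx hy
  obtain ⟨x0, hx0⟩ := hx 0
  obtain ⟨x1, hx1⟩ := hx 1
  obtain ⟨x2, hx2⟩ := hx 2
  obtain ⟨x3, hx3⟩ := hx 3
  obtain ⟨y0, hy0⟩ := hy 0
  obtain ⟨y1, hy1⟩ := hy 1
  obtain ⟨y2, hy2⟩ := hy 2
  obtain ⟨y3, hy3⟩ := hy 3
  rw [hx0, hx2, hy0, hy2] at h0
  rw [hx1, hx3, hy1, hy3] at h1
  have k0 := irr_zero ha (m := x0 - y0) (n := x2 - y2) (by push_cast; linarith)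
  have k1 := irr_zero ha (m := x1 - y1) (n := x3 - y3) (by push_cast; linarith)
  have e0 : x0 = y0 := by omega
  have e1 : x1 = y1 := by omega
  have e2 : x2 = y2 := by omega
  have e3 : x3 = y3 := by omega
  ext i
  fin_cases i
  · show x 0 = y 0; rw [hx0, hy0, e0]
  · show x 1 = y 1; rw [hx1, hy1, e1]
  · show x 2 = y 2; rw [hx2, hy2, e2]
  · show x 3 = y 3; rw [hx3, hy3, e3]

lemma finrank_pos (a : ℝ) : 1 ≤ Module.finrank ℝ (EE a) := by
  rw [Submodule.one_le_finrank_iff, Submodule.ne_bot_iff]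
  refine ⟨WithLp.toLp 2 ![1, 0, a, 0], ⟨?_, ?_⟩, ?_⟩
  · show a = a * 1; ring
  · show (0 : ℝ) = a * 0; ring
  · intro h
    have : (1 : ℝ) = 0 := by
      have h1 : (WithLp.toLp 2 ![(1 : ℝ), 0, a, 0] : V4) 0 = (0 : V4) 0 := by rw [h]
      exact h1
    norm_num at this

lemma norm_le_of_coord {x : V4} {r : ℝ} (hr : 0 ≤ r) (h : ∀ i, |x i| ≤ r) : ‖x‖ ≤ 2 * r := by
  rw [EuclideanSpace.norm_eq]
  apply Real.sqrt_le_iff.2
  refine ⟨by positivity, ?_⟩
  have h1 : ∀ i, ‖x i‖ ^ 2 ≤ r ^ 2 := fun i =>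
    pow_le_pow_left₀ (norm_nonneg _) (by rw [Real.norm_eq_abs]; exact h i) 2
  calc ∑ i, ‖x i‖ ^ 2 ≤ ∑ _i : Fin 4, r ^ 2 := Finset.sum_le_sum fun i _ => h1 i
    _ = (2 * r) ^ 2 := by simp; ring

lemma coord_le_norm (x : V4) (i : Fin 4) : |x i| ≤ ‖x‖ := by
  rw [← Real.norm_eq_abs]
  exact PiLp.norm_apply_le x i

lemma approx {a : ℝ} (ha : Irrational a) (t : ℝ) {ε : ℝ} (hε : 0 < ε) :
    ∃ m n : ℤ, |((m : ℝ) - a * n) - t| < ε := by
  have h1 : Dense (AddSubgroup.closure {a, (1 : ℝ)} : Set ℝ) := by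
    rw [dense_addSubgroupClosure_pair_iff, div_one]; exact ha
  obtain ⟨y, hy1, hy2⟩ := Metric.mem_closure_iff.1 (h1 t) ε hε
  rw [SetLike.mem_coe, AddSubgroup.mem_closure_pair] at hy1
  obtain ⟨p, q, hpq⟩ := hy1
  refine ⟨q, -p, ?_⟩
  rw [Real.dist_eq, abs_sub_comm] at hy2
  have : ((q : ℤ) : ℝ) - a * ((-p : ℤ) : ℝ) = y := by
    rw [← hpq]; push_cast; simp; ring
  rw [this]; exact hy2

lemma denseF {a : ℝ} (ha : Irrational a) (ha1 : |a| ≤ 1) :
    Dense ((fun x => Submodule.linearProjOfIsCompl (FF a) (EE a) (isCompl a).symm x) ''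
        {x : V4 | IntPt x}) := by
  intro z
  rw [Metric.mem_closure_iff]
  intro ε hε
  have hpos : (0 : ℝ) < 1 + a ^ 2 := by positivity
  obtain ⟨m0, n0, h0⟩ := approx ha ((1 + a ^ 2) * (z : V4) 2) (show (0 : ℝ) < ε / 4 by positivity)
  obtain ⟨m1, n1, h1⟩ := approx ha ((1 + a ^ 2) * (z : V4) 3) (show (0 : ℝ) < ε / 4 by positivity)
  set x : V4 := WithLp.toLp 2 ![(n0 : ℝ), (n1 : ℝ), (m0 : ℝ), (m1 : ℝ)] with hx
  have x0 : x 0 = n0 := rfl
  have x1 : x 1 = n1 := rfl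
  have x2 : x 2 = m0 := rfl
  have x3 : x 3 = m1 := rfl
  refine ⟨_, ⟨x, ?_, rfl⟩, ?_⟩
  · rw [Set.mem_ofPred_eq, intPt_iff]
    intro i
    fin_cases i
    · exact ⟨n0, rfl⟩
    · exact ⟨n1, rfl⟩
    · exact ⟨m0, rfl⟩
    · exact ⟨m1, rfl⟩
  · simp only [projF]
    rw [Subtype.dist_eq, dist_eq_norm]
    have hz := z.2
    obtain ⟨z0, z1⟩ := hz
    have d2 : |((z : V4) - PF a x) 2| ≤ ε / 4 := by
      rw [PiLp.sub_apply, PF2, x0, x2, abs_sub_comm]
      have e1 : ((m0 : ℝ) - a * n0) / (1 + a ^ 2) - (z : V4) 2 =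
          (((m0 : ℝ) - a * n0) - (1 + a ^ 2) * (z : V4) 2) / (1 + a ^ 2) := by
        field_simp
      rw [e1, abs_div, abs_of_pos hpos, div_le_iff₀ hpos]
      have : ε / 4 ≤ ε / 4 * (1 + a ^ 2) := by nlinarith [sq_nonneg a]
      linarith
    have d3 : |((z : V4) - PF a x) 3| ≤ ε / 4 := by
      rw [PiLp.sub_apply, PF3, x1, x3, abs_sub_comm]
      have e1 : ((m1 : ℝ) - a * n1) / (1 + a ^ 2) - (z : V4) 3 =
          (((m1 : ℝ) - a * n1) - (1 + a ^ 2) * (z : V4) 3) / (1 + a ^ 2) := by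
        field_simp
      rw [e1, abs_div, abs_of_pos hpos, div_le_iff₀ hpos]
      have : ε / 4 ≤ ε / 4 * (1 + a ^ 2) := by nlinarith [sq_nonneg a]
      linarith
    have d0 : |((z : V4) - PF a x) 0| ≤ ε / 4 := by
      have : ((z : V4) - PF a x) 0 = -a * ((z : V4) - PF a x) 2 := by
        rw [PiLp.sub_apply, PiLp.sub_apply, PF0, PF2, z0]; ring
      rw [this, abs_mul, abs_neg]
      calc |a| * |((z : V4) - PF a x) 2| ≤ 1 * (ε / 4) :=
            mul_le_mul ha1 d2 (abs_nonneg _) (by norm_num)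
        _ = ε / 4 := one_mul _
    have d1 : |((z : V4) - PF a x) 1| ≤ ε / 4 := by
      have : ((z : V4) - PF a x) 1 = -a * ((z : V4) - PF a x) 3 := by
        rw [PiLp.sub_apply, PiLp.sub_apply, PF1, PF3, z1]; ring
      rw [this, abs_mul, abs_neg]
      calc |a| * |((z : V4) - PF a x) 3| ≤ 1 * (ε / 4) :=
            mul_le_mul ha1 d3 (abs_nonneg _) (by norm_num)
        _ = ε / 4 := one_mul _
    have hn : ‖(z : V4) - PF a x‖ ≤ 2 * (ε / 4) := by
      apply norm_le_of_coord (by positivity)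
      intro i
      fin_cases i
      · exact d0
      · exact d1
      · exact d2
      · exact d3
    have : ‖(z : V4) - ((⟨PF a x, PF_mem a x⟩ : FF a) : V4)‖ ≤ 2 * (ε / 4) := hn
    linarith

end Pool.Agent.Helper90.Geo
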