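import Mathlib

set_option autoImplicit false

namespace Pool.Agent.Helper90.St

variable {e κ : ℕ → ℕ}

/-- growth of the exponents -/
def Grow (e κ : ℕ → ℕ) : Prop := e 0 = 3 ∧ ∀ j, e (j + 1) = 2 * e j + κ j + 2

lemma Grow.mono (h : Grow e κ) : StrictMono e :=
  strictMono_nat_of_lt_succ fun j => by rw [h.2 j]; omega

lemma Grow.three_le (h : Grow e κ) (j : ℕ) : 3 ≤ e j := by
  have := h.mono.monotone (Nat.zero_le j)
  rw [h.1] at this; exact this

lemma Grow.add_le (h : Grow e κ) (n i : ℕ) : e n + i ≤ e (n + i) := by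
  induction i with
  | zero => simp
  | succ i ih =>
    have := h.mono (show n + i < n + (i + 1) by omega)
    omega

lemma Grow.summable (h : Grow e κ) (n : ℕ) : Summable fun i => (1 / 2 : ℝ) ^ (e (n + i)) := by
  refine Summable.of_nonneg_of_le (fun i => by positivity) (fun i => ?_) summable_geometric_two
  apply pow_le_pow_of_le_one (by norm_num) (by norm_num)
  have := h.add_le n i
  omega

/-- the tails -/
noncomputable def tail (e : ℕ → ℕ) (n : ℕ) : ℝ := ∑' i, (1 / 2 : ℝ) ^ (e (n + i))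

/-- the slope -/
noncomputable def al (e : ℕ → ℕ) : ℝ := tail e 0

lemma Grow.tail_nonneg (n : ℕ) : 0 ≤ tail e n := tsum_nonneg fun i => by positivity

lemma Grow.tail_succ (h : Grow e κ) (n : ℕ) :
    tail e n = (1 / 2 : ℝ) ^ (e n) + tail e (n + 1) := by
  unfold tail
  rw [(h.summable n).tsum_eq_zero_add]
  congr 1
  apply tsum_congr
  intro i
  congr 2
  ring

lemma Grow.tail_le (h : Grow e κ) (n : ℕ) : tail e n ≤ 2 * (1 / 2 : ℝ) ^ (e n) := by
  unfold tail
  have h1 : ∀ i, (1 / 2 : ℝ) ^ (e (n + i)) ≤ (1 / 2 : ℝ) ^ (e n) * (1 / 2) ^ i := by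
    intro i
    rw [← pow_add]
    exact pow_le_pow_of_le_one (by norm_num) (by norm_num) (h.add_le n i)
  have h2 : Summable fun i : ℕ => (1 / 2 : ℝ) ^ (e n) * (1 / 2) ^ i :=
    summable_geometric_two.mul_left _
  calc ∑' i, (1 / 2 : ℝ) ^ (e (n + i)) ≤ ∑' i : ℕ, (1 / 2 : ℝ) ^ (e n) * (1 / 2) ^ i :=
        (h.summable n).tsum_le_tsum h1 h2
    _ = 2 * (1 / 2 : ℝ) ^ (e n) := by rw [tsum_mul_left, tsum_geometric_two]; ring

lemma Grow.tail_pos (h : Grow e κ) (n : ℕ) : 0 < tail e n := by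
  rw [h.tail_succ]
  have := Grow.tail_nonneg (e := e) (n + 1)
  positivity

/-- numerators -/
def pnum (e : ℕ → ℕ) : ℕ → ℕ
  | 0 => 1
  | j + 1 => 2 ^ (e (j + 1) - e j) * pnum e j + 1

lemma Grow.al_eq (h : Grow e κ) (j : ℕ) :
    al e = pnum e j / 2 ^ (e j) + tail e (j + 1) := by
  induction j with
  | zero =>
    unfold al
    rw [h.tail_succ, pnum]
    norm_num
    rw [one_div, inv_pow]
  | succ j ih =>
    rw [ih, h.tail_succ (j + 1), pnum]
    have h1 : (2 : ℝ) ^ (e (j + 1)) = 2 ^ (e (j + 1) - e j) * 2 ^ (e j) := by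
      rw [← pow_add]; congr 1
      have := h.mono (Nat.lt_succ_self j)
      have h2 : e j < e (j + 1) := this
      omega
    push_cast
    rw [one_div, inv_pow, ← add_assoc]
    congr 1
    rw [h1]
    field_simp

lemma Grow.coprime (h : Grow e κ) (j : ℕ) : Nat.Coprime (pnum e j) (2 ^ (e j)) := by
  apply Nat.Coprime.pow_right
  rw [Nat.coprime_two_right]
  cases j with
  | zero => exact odd_one
  | succ j =>
    rw [pnum]
    have h1 : 0 < e (j + 1) - e j := by
      have : e j < e (j + 1) := h.mono (Nat.lt_succ_self j)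
      omega
    refine Even.add_one ?_
    exact (Nat.even_pow.2 ⟨even_two, by omega⟩).mul_right _

lemma Grow.al_pos (h : Grow e κ) : 0 < al e := h.tail_pos 0

lemma Grow.al_le (h : Grow e κ) : al e ≤ 1 / 4 := by
  have := h.tail_le 0
  rw [h.1] at this
  unfold al
  norm_num at this ⊢
  linarith

lemma Grow.irrational (h : Grow e κ) : Irrational (al e) := by
  rintro ⟨r, hr⟩
  -- denominator
  set b : ℕ := r.den with hb
  have hbpos : 0 < b := r.den_pos
  have hbr : (al e) * b = r.num := by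
    rw [← hr]; exact_mod_cast r.mul_den_eq_num
  -- choose j with b < e j
  have hj : b < 2 ^ (e b) := by
    have h1 := h.add_le 0 b
    rw [zero_add] at h1
    calc b ≤ e b := by omega
      _ < 2 ^ (e b) := Nat.lt_two_pow_self
  have h1 := h.al_eq b
  have hq : (0 : ℝ) < 2 ^ (e b) := by positivity
  -- b * 2^e * tail is a positive integer less than one
  have h2 : (b : ℝ) * 2 ^ (e b) * tail e (b + 1) = ((r.num * 2 ^ (e b) - b * pnum e b : ℤ) : ℝ) := by
    have h3 : tail e (b + 1) = al e - pnum e b / 2 ^ (e b) := by linarith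
    rw [h3]
    push_cast
    rw [← hbr]
    field_simp
  have h3 : (0 : ℝ) < (b : ℝ) * 2 ^ (e b) * tail e (b + 1) := by
    have := h.tail_pos (b + 1)
    have hb' : (0 : ℝ) < b := by exact_mod_cast hbpos
    positivity
  have h4 : (b : ℝ) * 2 ^ (e b) * tail e (b + 1) < 1 := by
    have h5 := h.tail_le (b + 1)
    have h6 : (b : ℝ) < 2 ^ (e b) := by exact_mod_cast hj
    have h7 : (1 / 2 : ℝ) ^ (e (b + 1)) ≤ (1 / 2) ^ (2 * e b + 2) := by
      apply pow_le_pow_of_le_one (by norm_num) (by norm_num)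
      rw [h.2 b]; omega
    have h8 : (1 / 2 : ℝ) ^ (2 * e b + 2) = 1 / (4 * (2 ^ (e b) * 2 ^ (e b))) := by
      rw [one_div_pow, show 2 * e b + 2 = e b + e b + 2 by ring, pow_add, pow_add]
      congr 1; ring
    have h9 : tail e (b + 1) ≤ 1 / (2 * (2 ^ (e b) * 2 ^ (e b))) := by
      refine h5.trans ?_
      have := mul_le_mul_of_nonneg_left h7 (show (0 : ℝ) ≤ 2 by norm_num)
      refine this.trans (le_of_eq ?_)
      rw [h8]; field_simp; norm_num
    calc (b : ℝ) * 2 ^ (e b) * tail e (b + 1)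
        ≤ 2 ^ (e b) * 2 ^ (e b) * (1 / (2 * (2 ^ (e b) * 2 ^ (e b)))) := by
          apply mul_le_mul _ h9 (h.tail_pos _).le (by positivity)
          exact mul_le_mul_of_nonneg_right h6.le hq.le
      _ = 1 / 2 := by field_simp
      _ < 1 := by norm_num
  rw [h2] at h3 h4
  have h5 : (0 : ℤ) < r.num * 2 ^ (e b) - b * pnum e b := by exact_mod_cast h3
  have h6 : r.num * 2 ^ (e b) - b * pnum e b < (1 : ℤ) := by exact_mod_cast h4
  omega

end Pool.Agent.Helper90.St
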