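import Mathlib
import Pool.Agent.Helper90.St1

set_option autoImplicit false

namespace Pool.Agent.Helper90.St

variable {e κ : ℕ → ℕ}

lemma Grow.pow_succ_eq (h : Grow e κ) (j : ℕ) :
    2 ^ (e (j + 1)) = 4 * (2 ^ (e j)) ^ 2 * 2 ^ (κ j) := by
  rw [h.2 j, pow_add, pow_add, ← pow_mul, mul_comm (e j) 2]; ring

lemma Grow.pow_sub_eq (h : Grow e κ) (j : ℕ) :
    2 ^ (e (j + 1) - e j) = 4 * 2 ^ (e j) * 2 ^ (κ j) := by
  have h1 : e (j + 1) - e j = 2 + e j + κ j := by rw [h.2 j]; omega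
  rw [h1, pow_add, pow_add]; norm_num

lemma Grow.tail2 (h : Grow e κ) (j : ℕ) :
    tail e (j + 2) ≤ 1 / (2 * (2 ^ (e (j + 1))) ^ 2) := by
  have h5 := h.tail_le (j + 2)
  have h7 : (1 / 2 : ℝ) ^ (e (j + 2)) ≤ (1 / 2) ^ (2 * e (j + 1) + 2) := by
    apply pow_le_pow_of_le_one (by norm_num) (by norm_num)
    rw [h.2 (j + 1)]; omega
  have h8 : (1 / 2 : ℝ) ^ (2 * e (j + 1) + 2) = 1 / (4 * (2 ^ (e (j + 1))) ^ 2) := by
    rw [one_div_pow, pow_add, ← pow_mul, mul_comm (e (j + 1)) 2]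
    congr 1; ring
  rw [h8] at h7
  refine h5.trans ?_
  have := mul_le_mul_of_nonneg_left h7 (show (0 : ℝ) ≤ 2 by norm_num)
  refine this.trans (le_of_eq ?_)
  field_simp; norm_num

/-- basic estimate for the position inside a cell -/
lemma Grow.est (h : Grow e κ) (j x : ℕ) (hx : x < 2 ^ (e (j + 1) - e j)) :
    2 ^ (e j) * (x * tail e (j + 1)) < 1 ∧
    ((x / (4 * 2 ^ (e j)) : ℕ) : ℝ) ≤ 2 ^ (κ j) * (2 ^ (e j) * (x * tail e (j + 1))) ∧
    2 ^ (κ j) * (2 ^ (e j) * (x * tail e (j + 1))) < (x / (4 * 2 ^ (e j)) : ℕ) + 1 := by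
  set q : ℕ := 2 ^ (e j) with hq
  set K : ℕ := 2 ^ (κ j) with hK
  have hqpos : 0 < q := by positivity
  have hKpos : 0 < K := by positivity
  have hN : (2 : ℝ) ^ (e (j + 1)) = 4 * (q : ℝ) ^ 2 * K := by
    have := h.pow_succ_eq j
    rw [← hq, ← hK] at this
    exact_mod_cast this
  have hxN : x < 4 * q * K := by rw [h.pow_sub_eq j] at hx; exact hx
  have hqr : (2 : ℝ) ^ (e j) = q := by rw [hq]; push_cast; rfl
  have hKr : (2 : ℝ) ^ (κ j) = K := by rw [hK]; push_cast; rfl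
  have ht2 := h.tail2 j
  have ht0 := Grow.tail_nonneg (e := e) (j + 2)
  have ht1 := h.tail_succ (j + 1)
  rw [one_div_pow, hN] at ht1
  rw [hN] at ht2
  set ρ : ℝ := tail e (j + 2) with hρ
  have hqR : (1 : ℝ) ≤ q := by exact_mod_cast hqpos
  have hKR : (1 : ℝ) ≤ K := by exact_mod_cast hKpos
  have hq0 : (0 : ℝ) < q := by linarith
  have hK0 : (0 : ℝ) < K := by linarith
  have hxr : (x : ℝ) + 1 ≤ 4 * q * K := by exact_mod_cast hxN
  have hx0 : (0 : ℝ) ≤ x := Nat.cast_nonneg x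
  rw [hqr, hKr, ht1]
  have e1 : (q : ℝ) * (x * (1 / (4 * q ^ 2 * K) + ρ)) = x / (4 * q * K) + q * x * ρ := by
    field_simp
  have e2 : (K : ℝ) * (q * (x * (1 / (4 * q ^ 2 * K) + ρ))) = x / (4 * q) + K * q * x * ρ := by
    field_simp
  have hρ1 : (q : ℝ) * x * ρ ≤ 1 / (8 * q ^ 2 * K) := by
    calc (q : ℝ) * x * ρ ≤ q * (4 * q * K) * (1 / (2 * (4 * (q : ℝ) ^ 2 * K) ^ 2)) := by
          apply mul_le_mul _ ht2 ht0 (by positivity)
          apply mul_le_mul_of_nonneg_left _ hq0.le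
          linarith
      _ = 1 / (8 * q ^ 2 * K) := by field_simp; norm_num
  have hρ2 : (K : ℝ) * q * x * ρ ≤ 1 / (8 * q ^ 2) := by
    have := mul_le_mul_of_nonneg_left hρ1 hK0.le
    calc (K : ℝ) * q * x * ρ = K * (q * x * ρ) := by ring
      _ ≤ K * (1 / (8 * q ^ 2 * K)) := this
      _ = 1 / (8 * q ^ 2) := by field_simp
  have hlt8 : (1 : ℝ) / (8 * q ^ 2) < 1 / (4 * q) := by
    apply one_div_lt_one_div_of_lt (by positivity)
    nlinarith
  have hlt8' : (1 : ℝ) / (8 * q ^ 2 * K) < 1 / (4 * q * K) := by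
    apply one_div_lt_one_div_of_lt (by positivity)
    nlinarith [mul_pos hq0 hK0]
  have hρ0 : (0 : ℝ) ≤ K * q * x * ρ := by positivity
  have hdm := Nat.div_add_mod x (4 * q)
  have hml := Nat.mod_lt x (show 0 < 4 * q by positivity)
  have hdr : (x : ℝ) = (4 * q) * (x / (4 * q) : ℕ) + (x % (4 * q) : ℕ) := by
    exact_mod_cast hdm.symm
  have hmr : ((x % (4 * q) : ℕ) : ℝ) + 1 ≤ 4 * q := by exact_mod_cast hml
  have hm0 : (0 : ℝ) ≤ ((x % (4 * q) : ℕ) : ℝ) := Nat.cast_nonneg _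
  rw [e2, e1]
  refine ⟨?_, ?_, ?_⟩
  · have h3 : (x : ℝ) / (4 * q * K) ≤ 1 - 1 / (4 * q * K) := by
      rw [div_le_iff₀ (by positivity)]
      have : (1 - 1 / (4 * (q : ℝ) * K)) * (4 * q * K) = 4 * q * K - 1 := by field_simp
      rw [this]; linarith
    linarith
  · have h3 : ((x / (4 * q) : ℕ) : ℝ) ≤ x / (4 * q) := by
      rw [le_div_iff₀ (by positivity)]
      nlinarith
    linarith
  · have h3 : (x : ℝ) / (4 * q) ≤ (x / (4 * q) : ℕ) + 1 - 1 / (4 * q) := by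
      rw [div_le_iff₀ (by positivity)]
      have : (((x / (4 * q) : ℕ) : ℝ) + 1 - 1 / (4 * q)) * (4 * q) =
          (4 * q) * (x / (4 * q) : ℕ) + (4 * q - 1) := by field_simp; ring
      rw [this]; linarith
    linarith

lemma Grow.fract_eq (h : Grow e κ) (j x : ℕ) (hx : x < 2 ^ (e (j + 1) - e j)) :
    Int.fract (al e * x) = ((x * pnum e j % 2 ^ (e j) : ℕ) : ℝ) / 2 ^ (e j) +
      x * tail e (j + 1) := by
  set q : ℕ := 2 ^ (e j) with hq
  have hqpos : 0 < q := by positivity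
  have hqr : (2 : ℝ) ^ (e j) = q := by rw [hq]; push_cast; rfl
  have hq0 : (0 : ℝ) < q := by exact_mod_cast hqpos
  have h1 := (h.est j x hx).1
  rw [hqr] at h1 ⊢
  have h2 := h.al_eq j
  rw [hqr] at h2
  have ht : 0 ≤ (x : ℝ) * tail e (j + 1) :=
    mul_nonneg (Nat.cast_nonneg _) (Grow.tail_nonneg _)
  have hml := Nat.mod_lt (x * pnum e j) hqpos
  have hmr : ((x * pnum e j % q : ℕ) : ℝ) + 1 ≤ q := by exact_mod_cast hml
  have hdm := Nat.div_add_mod (x * pnum e j) q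
  have hdr : (x : ℝ) * pnum e j = q * (x * pnum e j / q : ℕ) + (x * pnum e j % q : ℕ) := by
    exact_mod_cast hdm.symm
  rw [Int.fract_eq_iff]
  refine ⟨by positivity, ?_, ((x * pnum e j / q : ℕ) : ℤ), ?_⟩
  · have h3 : ((x * pnum e j % q : ℕ) : ℝ) / q ≤ 1 - 1 / q := by
      rw [div_le_iff₀ hq0]
      have : (1 - 1 / (q : ℝ)) * q = q - 1 := by field_simp
      rw [this]; linarith
    have h4 : (x : ℝ) * tail e (j + 1) < 1 / q := by
      rw [lt_div_iff₀ hq0]; linarith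
    linarith
  · rw [h2]
    have : (pnum e j / (q : ℝ) + tail e (j + 1)) * x = (x * pnum e j) / q + x * tail e (j + 1) := by
      ring
    rw [this, hdr, add_div, Int.cast_natCast]
    have h5 : (q : ℝ) * ((x * pnum e j / q : ℕ) : ℝ) / q = ((x * pnum e j / q : ℕ) : ℝ) := by
      field_simp
    rw [h5]
    ring

lemma Grow.floor1 (h : Grow e κ) (j x : ℕ) (hx : x < 2 ^ (e (j + 1) - e j)) :
    ⌊2 ^ (e j) * Int.fract (al e * x)⌋₊ = x * pnum e j % 2 ^ (e j) := by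
  rw [h.fract_eq j x hx]
  have h1 := (h.est j x hx).1
  have ht : 0 ≤ (x : ℝ) * tail e (j + 1) :=
    mul_nonneg (Nat.cast_nonneg _) (Grow.tail_nonneg _)
  have hq0 : (0 : ℝ) < 2 ^ (e j) := by positivity
  have e1 : 2 ^ (e j) * (((x * pnum e j % 2 ^ (e j) : ℕ) : ℝ) / 2 ^ (e j) + x * tail e (j + 1)) =
      ((x * pnum e j % 2 ^ (e j) : ℕ) : ℝ) + 2 ^ (e j) * (x * tail e (j + 1)) := by
    field_simp
  rw [e1, Nat.floor_eq_iff (by positivity)]
  constructor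
  · have : 0 ≤ (2 : ℝ) ^ (e j) * (x * tail e (j + 1)) := by positivity
    linarith
  · linarith

lemma Grow.floor2 (h : Grow e κ) (j x : ℕ) (hx : x < 2 ^ (e (j + 1) - e j)) :
    ⌊2 ^ (e j + κ j) * Int.fract (al e * x)⌋₊ % 2 ^ (κ j) = x / (4 * 2 ^ (e j)) := by
  have h2 := (h.est j x hx).2
  have ht : 0 ≤ (x : ℝ) * tail e (j + 1) :=
    mul_nonneg (Nat.cast_nonneg _) (Grow.tail_nonneg _)
  have hq0 : (0 : ℝ) < 2 ^ (e j) := by positivity
  have hfl : ⌊2 ^ (e j + κ j) * Int.fract (al e * x)⌋₊ =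
      2 ^ (κ j) * (x * pnum e j % 2 ^ (e j)) + x / (4 * 2 ^ (e j)) := by
    rw [h.fract_eq j x hx]
    have e1 : (2 : ℝ) ^ (e j + κ j) *
        (((x * pnum e j % 2 ^ (e j) : ℕ) : ℝ) / 2 ^ (e j) + x * tail e (j + 1)) =
        2 ^ (κ j) * ((x * pnum e j % 2 ^ (e j) : ℕ) : ℝ) +
          2 ^ (κ j) * (2 ^ (e j) * (x * tail e (j + 1))) := by
      rw [pow_add]; field_simp
    rw [e1, Nat.floor_eq_iff (by positivity)]
    push_cast at h2 ⊢
    constructor <;> linarith [h2.1, h2.2]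
  rw [hfl, Nat.mul_add_mod]
  apply Nat.mod_eq_of_lt
  rw [Nat.div_lt_iff_lt_mul (by positivity)]
  rw [h.pow_sub_eq j] at hx
  linarith

end Pool.Agent.Helper90.St
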