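import Mathlib
import Pool.Agent.Helper90.St2

set_option autoImplicit false

namespace Pool.Agent.Helper90.St

variable {e κ : ℕ → ℕ} {B : ℕ → ℕ → ℕ → Bool}

/-- the window in the unit square -/
def W0 (e κ : ℕ → ℕ) (B : ℕ → ℕ → ℕ → Bool) : Set (ℝ × ℝ) :=
  {s | ((1 / 2 ≤ s.1 ∧ s.1 < 1) ∧ (1 / 2 ≤ s.2 ∧ s.2 < 1)) ∨
    ∃ j, (⌊2 ^ (e j) * s.1⌋₊ = 1 ∨ ⌊2 ^ (e j) * s.1⌋₊ = 2) ∧
      (⌊2 ^ (e j) * s.2⌋₊ = 1 ∨ ⌊2 ^ (e j) * s.2⌋₊ = 2) ∧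
      B j (⌊2 ^ (e j + κ j) * s.1⌋₊ % 2 ^ (κ j)) (⌊2 ^ (e j + κ j) * s.2⌋₊ % 2 ^ (κ j)) = true}

lemma floor_coarse (s : ℝ) {a b : ℕ} (hab : a ≤ b) :
    ⌊2 ^ a * s⌋₊ = ⌊2 ^ b * s⌋₊ / 2 ^ (b - a) := by
  rw [← Nat.floor_div_natCast]
  congr 1
  have h1 : (2 : ℝ) ^ b = 2 ^ a * 2 ^ (b - a) := by rw [← pow_add]; congr 1; omega
  rw [h1]
  push_cast
  field_simp

lemma Grow.diff (h : Grow e κ) {i j : ℕ} (hij : i < j) : e i + κ i + 2 ≤ e j ∧ e i + 2 ≤ e j := by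
  have h1 : e (i + 1) ≤ e j := h.mono.monotone hij
  have h2 := h.2 i
  constructor <;> omega

lemma small_div {b n : ℕ} (hb : b = 1 ∨ b = 2) (hn : 2 ≤ n) : b / 2 ^ n = 0 := by
  apply Nat.div_eq_of_lt
  calc b < 4 := by omega
    _ = 2 ^ 2 := by norm_num
    _ ≤ 2 ^ n := Nat.pow_le_pow_right (by norm_num) hn

lemma W0_bounds (h : Grow e κ) {s : ℝ × ℝ} (hs : s ∈ W0 e κ B) :
    (0 < s.1 ∧ s.1 < 1) ∧ (0 < s.2 ∧ s.2 < 1) := by
  have key : ∀ (j : ℕ) (x : ℝ), (⌊2 ^ (e j) * x⌋₊ = 1 ∨ ⌊2 ^ (e j) * x⌋₊ = 2) → 0 < x ∧ x < 1 := by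
    intro j x hx
    have h8 : (8 : ℝ) ≤ 2 ^ (e j) := by
      calc (8 : ℝ) = 2 ^ 3 := by norm_num
        _ ≤ 2 ^ (e j) := pow_le_pow_right₀ (by norm_num) (h.three_le j)
    have h1 : 1 ≤ ⌊2 ^ (e j) * x⌋₊ := by omega
    have h2 : (1 : ℝ) ≤ 2 ^ (e j) * x := by
      have := (Nat.one_le_floor_iff _).1 h1
      exact this
    have h3 : ⌊2 ^ (e j) * x⌋₊ < 3 := by omega
    have h4 : 2 ^ (e j) * x < 3 := by
      have := Nat.lt_of_floor_lt h3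
      exact_mod_cast this
    constructor
    · by_contra hcon
      rw [not_lt] at hcon
      nlinarith
    · by_contra hcon
      rw [not_lt] at hcon
      nlinarith
  rcases hs with ⟨⟨h1, h2⟩, h3, h4⟩ | ⟨j, h1, h2, -⟩
  · exact ⟨⟨by linarith, h2⟩, by linarith, h4⟩
  · exact ⟨key j _ h1, key j _ h2⟩

lemma W0_congr (h : Grow e κ) (j : ℕ) {s s' : ℝ × ℝ}
    (h1 : ⌊2 ^ (e j) * s.1⌋₊ = ⌊2 ^ (e j) * s'.1⌋₊)
    (h2 : ⌊2 ^ (e j) * s.2⌋₊ = ⌊2 ^ (e j) * s'.2⌋₊)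
    (h0 : ¬ (⌊2 ^ (e j) * s'.1⌋₊ = 0 ∧ ⌊2 ^ (e j) * s'.2⌋₊ = 0))
    (h12 : ¬ ((⌊2 ^ (e j) * s'.1⌋₊ = 1 ∨ ⌊2 ^ (e j) * s'.1⌋₊ = 2) ∧
      (⌊2 ^ (e j) * s'.2⌋₊ = 1 ∨ ⌊2 ^ (e j) * s'.2⌋₊ = 2)))
    (hs1 : s'.1 < 1) (hs2 : s'.2 < 1) (hs : s ∈ W0 e κ B) : s' ∈ W0 e κ B := by
  have h3 := h.three_le j
  rcases hs with ⟨⟨a1, a2⟩, a3, a4⟩ | ⟨i, a1, a2, a3⟩
  · left
    have key : ∀ x y : ℝ, ⌊2 ^ (e j) * x⌋₊ = ⌊2 ^ (e j) * y⌋₊ → 1 / 2 ≤ x → 1 / 2 ≤ y := by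
      intro x y hxy hx
      have b1 := floor_coarse x (show 1 ≤ e j by omega)
      have b2 := floor_coarse y (show 1 ≤ e j by omega)
      rw [hxy, ← b2] at b1
      have b3 : 1 ≤ ⌊(2 : ℝ) ^ 1 * x⌋₊ := by
        rw [Nat.one_le_floor_iff]; linarith
      rw [b1] at b3
      rw [Nat.one_le_floor_iff] at b3
      linarith
    exact ⟨⟨key _ _ h1 a1, hs1⟩, key _ _ h2 a3, hs2⟩
  · right
    rcases lt_trichotomy i j with hij | hij | hij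
    · refine ⟨i, ?_, ?_, ?_⟩
      · have d := (h.diff hij).2
        rw [floor_coarse s'.1 (show e i ≤ e j by omega), ← h1,
          ← floor_coarse s.1 (show e i ≤ e j by omega)]
        exact a1
      · have d := (h.diff hij).2
        rw [floor_coarse s'.2 (show e i ≤ e j by omega), ← h2,
          ← floor_coarse s.2 (show e i ≤ e j by omega)]
        exact a2
      · have d := (h.diff hij).1
        rw [floor_coarse s'.1 (show e i + κ i ≤ e j by omega), ← h1,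
          ← floor_coarse s.1 (show e i + κ i ≤ e j by omega),
          floor_coarse s'.2 (show e i + κ i ≤ e j by omega), ← h2,
          ← floor_coarse s.2 (show e i + κ i ≤ e j by omega)]
        exact a3
    · subst hij
      rw [h1] at a1; rw [h2] at a2
      exact absurd ⟨a1, a2⟩ h12
    · exfalso
      apply h0
      have d := (h.diff hij).2
      rw [← h1, ← h2, floor_coarse s.1 (show e j ≤ e i by omega),
        floor_coarse s.2 (show e j ≤ e i by omega)]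
      exact ⟨small_div a1 (by omega), small_div a2 (by omega)⟩

lemma W0_pattern (h : Grow e κ) (j : ℕ) {s : ℝ × ℝ}
    (h1 : ⌊2 ^ (e j) * s.1⌋₊ = 1 ∨ ⌊2 ^ (e j) * s.1⌋₊ = 2)
    (h2 : ⌊2 ^ (e j) * s.2⌋₊ = 1 ∨ ⌊2 ^ (e j) * s.2⌋₊ = 2) :
    s ∈ W0 e κ B ↔
      B j (⌊2 ^ (e j + κ j) * s.1⌋₊ % 2 ^ (κ j)) (⌊2 ^ (e j + κ j) * s.2⌋₊ % 2 ^ (κ j)) = true := by
  constructor
  · rintro (⟨⟨a1, a2⟩, -⟩ | ⟨i, a1, a2, a3⟩)
    · exfalso
      have b1 := floor_coarse s.1 (show 1 ≤ e j by have := h.three_le j; omega)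
      rw [small_div h1 (by have := h.three_le j; omega)] at b1
      have b3 : 1 ≤ ⌊(2 : ℝ) ^ 1 * s.1⌋₊ := by
        rw [Nat.one_le_floor_iff]; linarith
      omega
    · rcases lt_trichotomy i j with hij | hij | hij
      · exfalso
        have d := (h.diff hij).2
        have b1 := floor_coarse s.1 (show e i ≤ e j by omega)
        rw [small_div h1 (by omega)] at b1
        omega
      · subst hij; exact a3
      · exfalso
        have d := (h.diff hij).2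
        have b1 := floor_coarse s.1 (show e j ≤ e i by omega)
        rw [small_div a1 (by omega)] at b1
        omega
  · intro h3
    exact Or.inr ⟨j, h1, h2, h3⟩

/-- the index set -/
def Y0 (e κ : ℕ → ℕ) (B : ℕ → ℕ → ℕ → Bool) : Set (ℤ × ℤ) :=
  {n | (Int.fract (al e * n.1), Int.fract (al e * n.2)) ∈ W0 e κ B}

/-- cells outside the corner and outside the patterned block -/
def Uc (e κ : ℕ → ℕ) (B : ℕ → ℕ → ℕ → Bool) (j : ℕ) (b : ℕ × ℕ) : Prop :=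
  ¬ (b.1 = 0 ∧ b.2 = 0) ∧ ¬ ((b.1 = 1 ∨ b.1 = 2) ∧ (b.2 = 1 ∨ b.2 = 2)) ∧
    ((b.1 : ℝ) / 2 ^ (e j), (b.2 : ℝ) / 2 ^ (e j)) ∈ W0 e κ B

lemma mem_Y0_pattern (h : Grow e κ) (j x y : ℕ) (hx : x < 2 ^ (e (j + 1) - e j))
    (hy : y < 2 ^ (e (j + 1) - e j))
    (h1 : x * pnum e j % 2 ^ (e j) = 1 ∨ x * pnum e j % 2 ^ (e j) = 2)
    (h2 : y * pnum e j % 2 ^ (e j) = 1 ∨ y * pnum e j % 2 ^ (e j) = 2) :
    ((x : ℤ), (y : ℤ)) ∈ Y0 e κ B ↔ B j (x / (4 * 2 ^ (e j))) (y / (4 * 2 ^ (e j))) = true := by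
  unfold Y0
  rw [Set.mem_ofPred_eq]
  simp only [Int.cast_natCast]
  rw [W0_pattern h j (by simp only; rw [h.floor1 j x hx]; exact h1)
    (by simp only; rw [h.floor1 j y hy]; exact h2)]
  simp only
  rw [h.floor2 j x hx, h.floor2 j y hy]

lemma mem_Y0_other (h : Grow e κ) (j x y : ℕ) (hx : x < 2 ^ (e (j + 1) - e j))
    (hy : y < 2 ^ (e (j + 1) - e j))
    (h0 : ¬ (x * pnum e j % 2 ^ (e j) = 0 ∧ y * pnum e j % 2 ^ (e j) = 0))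
    (h12 : ¬ ((x * pnum e j % 2 ^ (e j) = 1 ∨ x * pnum e j % 2 ^ (e j) = 2) ∧
      (y * pnum e j % 2 ^ (e j) = 1 ∨ y * pnum e j % 2 ^ (e j) = 2))) :
    ((x : ℤ), (y : ℤ)) ∈ Y0 e κ B ↔
      Uc e κ B j (x * pnum e j % 2 ^ (e j), y * pnum e j % 2 ^ (e j)) := by
  have hq0 : (0 : ℝ) < 2 ^ (e j) := by positivity
  have hfl : ∀ b : ℕ, ⌊(2 : ℝ) ^ (e j) * ((b : ℝ) / 2 ^ (e j))⌋₊ = b := by
    intro b
    have : (2 : ℝ) ^ (e j) * ((b : ℝ) / 2 ^ (e j)) = b := by field_simp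
    rw [this, Nat.floor_natCast]
  have hlt : ∀ z : ℕ, ((z * pnum e j % 2 ^ (e j) : ℕ) : ℝ) / 2 ^ (e j) < 1 := by
    intro z
    rw [div_lt_one hq0]
    have := Nat.mod_lt (z * pnum e j) (show 0 < 2 ^ (e j) by positivity)
    exact_mod_cast this
  unfold Y0
  rw [Set.mem_ofPred_eq]
  simp only [Int.cast_natCast]
  constructor
  · intro hm
    refine ⟨h0, h12, ?_⟩
    apply W0_congr h j (s := (Int.fract (al e * x), Int.fract (al e * y))) _ _ _ _ (hlt _) (hlt _) hm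
    · simp only; rw [hfl, h.floor1 j x hx]
    · simp only; rw [hfl, h.floor1 j y hy]
    · simp only; rw [hfl, hfl]; exact h0
    · simp only; rw [hfl, hfl]; exact h12
  · rintro ⟨-, -, hm⟩
    apply W0_congr h j (s := (((x * pnum e j % 2 ^ (e j) : ℕ) : ℝ) / 2 ^ (e j),
      ((y * pnum e j % 2 ^ (e j) : ℕ) : ℝ) / 2 ^ (e j))) _ _ _ _ (Int.fract_lt_one _)
      (Int.fract_lt_one _) hm
    · simp only; rw [hfl, h.floor1 j x hx]
    · simp only; rw [hfl, h.floor1 j y hy]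
    · simp only; rw [h.floor1 j x hx, h.floor1 j y hy]; exact h0
    · simp only; rw [h.floor1 j x hx, h.floor1 j y hy]; exact h12

end Pool.Agent.Helper90.St
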