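import Mathlib
import Pool.Agent.Helper90.Geo1
import Pool.Agent.Helper90.St3

set_option autoImplicit false
set_option linter.deprecated false

namespace Pool.Agent.Helper90.Geo

open Pool.Agent.Helper90.St MeasureTheory

variable {e κ : ℕ → ℕ} {B : ℕ → ℕ → ℕ → Bool}

/-- dyadic rationals -/
def Dy : Set ℝ := Set.range fun p : ℕ × ℕ => (p.1 : ℝ) / 2 ^ p.2

lemma Dy_countable : Dy.Countable := Set.countable_range _

lemma frontier_W0 (h : Grow e κ) :
    frontier (W0 e κ B) ⊆ {s | s.1 ∈ Dy ∨ s.2 ∈ Dy} := by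
  intro s hs
  by_contra hcon
  rw [Set.mem_ofPred_eq, not_or] at hcon
  obtain ⟨hd1, hd2⟩ := hcon
  -- it suffices to find an open neighbourhood on which membership is constant
  have key : ∀ U : Set (ℝ × ℝ), IsOpen U → s ∈ U →
      (U ⊆ W0 e κ B ∨ Disjoint U (W0 e κ B)) → False := by
    intro U hU hsU hUW
    rw [frontier_eq_closure_inter_closure] at hs
    rcases hUW with hUW | hUW
    · obtain ⟨y, hy1, hy2⟩ := mem_closure_iff.1 hs.2 U hU hsU
      exact hy2 (hUW hy1)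
    · obtain ⟨y, hy1, hy2⟩ := mem_closure_iff.1 hs.1 U hU hsU
      exact (Set.disjoint_left.1 hUW) hy1 hy2
  have h0 : (0 : ℝ) ∈ Dy := ⟨(0, 0), by simp⟩
  have h1 : (1 : ℝ) ∈ Dy := ⟨(1, 0), by simp⟩
  have c1 : Continuous fun s : ℝ × ℝ => s.1 := continuous_fst
  have c2 : Continuous fun s : ℝ × ℝ => s.2 := continuous_snd
  by_cases a1 : 0 < s.1
  swap
  · have : s.1 < 0 := lt_of_le_of_ne (not_lt.1 a1) fun hh => hd1 (hh ▸ h0)
    refine key {s | s.1 < 0} (isOpen_lt c1 continuous_const) this (Or.inr ?_)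
    rw [Set.disjoint_left]
    intro y hy hyW
    have := (W0_bounds h hyW).1.1
    have hy' : y.1 < 0 := hy
    linarith
  by_cases a2 : s.1 < 1
  swap
  · have : 1 < s.1 := lt_of_le_of_ne (not_lt.1 a2) fun hh => hd1 (hh ▸ h1)
    refine key {s | 1 < s.1} (isOpen_lt continuous_const c1) this (Or.inr ?_)
    rw [Set.disjoint_left]
    intro y hy hyW
    have := (W0_bounds h hyW).1.2
    have hy' : 1 < y.1 := hy
    linarith
  by_cases a3 : 0 < s.2
  swap
  · have : s.2 < 0 := lt_of_le_of_ne (not_lt.1 a3) fun hh => hd2 (hh ▸ h0)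
    refine key {s | s.2 < 0} (isOpen_lt c2 continuous_const) this (Or.inr ?_)
    rw [Set.disjoint_left]
    intro y hy hyW
    have := (W0_bounds h hyW).2.1
    have hy' : y.2 < 0 := hy
    linarith
  by_cases a4 : s.2 < 1
  swap
  · have : 1 < s.2 := lt_of_le_of_ne (not_lt.1 a4) fun hh => hd2 (hh ▸ h1)
    refine key {s | 1 < s.2} (isOpen_lt continuous_const c2) this (Or.inr ?_)
    rw [Set.disjoint_left]
    intro y hy hyW
    have := (W0_bounds h hyW).2.2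
    have hy' : 1 < y.2 := hy
    linarith
  -- choose the stage
  obtain ⟨j, hj⟩ := pow_unbounded_of_one_lt (3 / s.1) (one_lt_two : (1 : ℝ) < 2)
  have hj2 : 3 / s.1 < 2 ^ (e j) := lt_of_lt_of_le hj
    (pow_le_pow_right₀ (by norm_num) (by have := h.add_le 0 j; rw [zero_add] at this; omega))
  rw [div_lt_iff₀ a1] at hj2
  have hq0 : (0 : ℝ) < 2 ^ (e j) := by positivity
  set b1 := ⌊2 ^ (e j) * s.1⌋₊ with hb1
  set b2 := ⌊2 ^ (e j) * s.2⌋₊ with hb2
  have hb1' : 3 ≤ b1 := Nat.le_floor (by push_cast; exact hj2.le)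
  have hlt : ∀ x : ℝ, 0 < x → x ∉ Dy → (⌊2 ^ (e j) * x⌋₊ : ℝ) < 2 ^ (e j) * x := by
    intro x hx hxD
    refine lt_of_le_of_ne (Nat.floor_le (by positivity)) fun hh => hxD ?_
    refine ⟨(⌊2 ^ (e j) * x⌋₊, e j), ?_⟩
    simp only
    rw [hh]; field_simp
  let U : Set (ℝ × ℝ) := {s' | (b1 : ℝ) < 2 ^ (e j) * s'.1 ∧ 2 ^ (e j) * s'.1 < b1 + 1 ∧
    (b2 : ℝ) < 2 ^ (e j) * s'.2 ∧ 2 ^ (e j) * s'.2 < b2 + 1 ∧ s'.1 < 1 ∧ s'.2 < 1}
  have cc1 : Continuous fun s : ℝ × ℝ => (2 : ℝ) ^ (e j) * s.1 := continuous_const.mul c1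
  have cc2 : Continuous fun s : ℝ × ℝ => (2 : ℝ) ^ (e j) * s.2 := continuous_const.mul c2
  have hU : IsOpen U := by
    refine (isOpen_lt continuous_const cc1).inter ((isOpen_lt cc1 continuous_const).inter
      ((isOpen_lt continuous_const cc2).inter ((isOpen_lt cc2 continuous_const).inter
        ((isOpen_lt c1 continuous_const).inter (isOpen_lt c2 continuous_const)))))
  have hsU : s ∈ U := ⟨hlt _ a1 hd1, Nat.lt_floor_add_one _, hlt _ a3 hd2,
    Nat.lt_floor_add_one _, a2, a4⟩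
  have hfl : ∀ y ∈ U, ⌊2 ^ (e j) * y.1⌋₊ = b1 ∧ ⌊2 ^ (e j) * y.2⌋₊ = b2 := by
    rintro y ⟨y1, y2, y3, y4, -, -⟩
    constructor
    · rw [Nat.floor_eq_iff (le_trans (Nat.cast_nonneg _) y1.le)]; exact ⟨y1.le, y2⟩
    · rw [Nat.floor_eq_iff (le_trans (Nat.cast_nonneg _) y3.le)]; exact ⟨y3.le, y4⟩
  refine key U hU hsU ?_
  by_cases hsW : s ∈ W0 e κ B
  · left
    intro y hy
    obtain ⟨f1, f2⟩ := hfl y hy
    refine W0_congr h j (s := s) (by rw [f1]) (by rw [f2]) ?_ ?_ hy.2.2.2.2.1 hy.2.2.2.2.2 hsW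
    · rw [f1]; omega
    · rw [f1]; omega
  · right
    rw [Set.disjoint_left]
    intro y hy hyW
    obtain ⟨f1, f2⟩ := hfl y hy
    refine hsW (W0_congr h j (s := y) (by rw [f1]) (by rw [f2]) ?_ ?_ a2 a4 hyW)
    · rw [← hb1]; omega
    · rw [← hb1]; omega

/-- the chart of `F` -/
noncomputable def Φ (a : ℝ) (z : FF a) : ℝ × ℝ :=
  (-(1 + a ^ 2) * (z : V4) 2, -(1 + a ^ 2) * (z : V4) 3)

/-- the window in `F` -/
def WF (a : ℝ) (W : Set (ℝ × ℝ)) : Set (FF a) := Φ a ⁻¹' W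

lemma mem_WF (a : ℝ) (W : Set (ℝ × ℝ)) (x : V4) :
    (⟨PF a x, PF_mem a x⟩ : FF a) ∈ WF a W ↔ (a * x 0 - x 2, a * x 1 - x 3) ∈ W := by
  have hpos : (1 + a ^ 2) ≠ 0 := by positivity
  unfold WF Φ
  rw [Set.mem_preimage]
  simp only [PF2, PF3]
  have e1 : -(1 + a ^ 2) * ((x 2 - a * x 0) / (1 + a ^ 2)) = a * x 0 - x 2 := by
    field_simp; ring
  have e2 : -(1 + a ^ 2) * ((x 3 - a * x 1) / (1 + a ^ 2)) = a * x 1 - x 3 := by
    field_simp; ring
  rw [e1, e2]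

lemma continuous_Φ (a : ℝ) : Continuous (Φ a) := by
  unfold Φ
  have h : ∀ i : Fin 4, Continuous fun z : FF a => (z : V4) i := fun i =>
    (EuclideanSpace.proj (𝕜 := ℝ) i).continuous.comp continuous_subtype_val
  exact (continuous_const.mul (h 2)).prodMk (continuous_const.mul (h 3))

/-- coordinate functional on `F` -/
noncomputable def crd (a : ℝ) (i : Fin 4) : FF a →ₗ[ℝ] ℝ :=
  (EuclideanSpace.proj (𝕜 := ℝ) i : V4 →L[ℝ] ℝ).toLinearMap ∘ₗ (FF a).subtype

lemma crd_apply (a : ℝ) (i : Fin 4) (z : FF a) : crd a i z = (z : V4) i := rfl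

lemma hyperplane_null (a : ℝ) (ℓ : FF a →ₗ[ℝ] ℝ) (hℓ : ℓ ≠ 0) (c : ℝ) :
    volume {z : FF a | ℓ z = c} = 0 := by
  by_cases hne : ∃ z0, ℓ z0 = c
  · obtain ⟨z0, hz0⟩ := hne
    have h1 := Measure.addHaar_affineSubspace (volume : Measure (FF a))
      (AffineSubspace.mk' z0 (LinearMap.ker ℓ)) (by
        intro htop
        apply hℓ
        have h2 : (AffineSubspace.mk' z0 (LinearMap.ker ℓ)).direction = ⊤ := by
          rw [htop]; exact AffineSubspace.direction_top _ _ _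
        rw [AffineSubspace.direction_mk'] at h2
        exact LinearMap.ker_eq_top.1 h2)
    refine measure_mono_null ?_ h1
    intro z hz
    rw [SetLike.mem_coe, AffineSubspace.mem_mk', LinearMap.mem_ker]
    have hz' : ℓ z = c := hz
    rw [vsub_eq_sub, map_sub, hz', hz0, sub_self]
  · have : {z : FF a | ℓ z = c} = ∅ := by
      ext z
      simp only [Set.mem_ofPred_eq, Set.mem_empty_iff_false, iff_false]
      exact fun hz => hne ⟨z, hz⟩
    rw [this]; exact measure_empty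

lemma crd_ne (a : ℝ) : crd a 2 ≠ 0 ∧ crd a 3 ≠ 0 := by
  constructor
  · intro h
    have hm : (WithLp.toLp 2 ![-a, 0, 1, 0] : V4) ∈ FF a := by
      constructor
      · show -a = -a * 1; ring
      · show (0 : ℝ) = -a * 0; ring
    have h1 : crd a 2 ⟨_, hm⟩ = 0 := by rw [h]; rfl
    have h2 : crd a 2 ⟨_, hm⟩ = 1 := rfl
    rw [h1] at h2; norm_num at h2
  · intro h
    have hm : (WithLp.toLp 2 ![0, -a, 0, 1] : V4) ∈ FF a := by
      constructor
      · show (0 : ℝ) = -a * 0; ring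
      · show -a = -a * 1; ring
    have h1 : crd a 3 ⟨_, hm⟩ = 0 := by rw [h]; rfl
    have h2 : crd a 3 ⟨_, hm⟩ = 1 := rfl
    rw [h1] at h2; norm_num at h2

lemma null_frontier (h : Grow e κ) (a : ℝ) :
    volume (frontier (WF a (W0 e κ B))) = 0 := by
  have h1 : frontier (WF a (W0 e κ B)) ⊆
      (⋃ d ∈ Dy, {z : FF a | crd a 2 z = -d / (1 + a ^ 2)}) ∪
        ⋃ d ∈ Dy, {z : FF a | crd a 3 z = -d / (1 + a ^ 2)} := by
    intro z hz
    have h2 := frontier_W0 h ((continuous_Φ a).frontier_preimage_subset _ hz)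
    have hpos : (1 + a ^ 2) ≠ 0 := by positivity
    rcases h2 with h2 | h2
    · left
      rw [Set.mem_iUnion₂]
      refine ⟨_, h2, ?_⟩
      rw [Set.mem_ofPred_eq, crd_apply]
      unfold Φ
      simp only
      field_simp
    · right
      rw [Set.mem_iUnion₂]
      refine ⟨_, h2, ?_⟩
      rw [Set.mem_ofPred_eq, crd_apply]
      unfold Φ
      simp only
      field_simp
  refine measure_mono_null h1 (measure_union_null ?_ ?_)
  · rw [measure_biUnion_null_iff Dy_countable]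
    intro d _
    exact hyperplane_null a _ (crd_ne a).1 _
  · rw [measure_biUnion_null_iff Dy_countable]
    intro d _
    exact hyperplane_null a _ (crd_ne a).2 _

lemma bounded_WF (h : Grow e κ) {a : ℝ} (ha1 : |a| ≤ 1) :
    Bornology.IsBounded (WF a (W0 e κ B)) := by
  rw [isBounded_iff_forall_norm_le]
  refine ⟨2 * 1, fun z hz => ?_⟩
  have hb := W0_bounds h (show Φ a z ∈ W0 e κ B from hz)
  unfold Φ at hb
  simp only at hb
  obtain ⟨⟨b1, b2⟩, b3, b4⟩ := hb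
  have hpos : (0 : ℝ) < 1 + a ^ 2 := by positivity
  have k2 : |(z : V4) 2| ≤ 1 := by
    rw [abs_le]
    constructor <;> nlinarith [sq_nonneg a]
  have k3 : |(z : V4) 3| ≤ 1 := by
    rw [abs_le]
    constructor <;> nlinarith [sq_nonneg a]
  obtain ⟨z0, z1⟩ := z.2
  have k0 : |(z : V4) 0| ≤ 1 := by
    rw [z0, abs_mul, abs_neg]
    calc |a| * |(z : V4) 2| ≤ 1 * 1 := mul_le_mul ha1 k2 (abs_nonneg _) (by norm_num)
      _ = 1 := one_mul _
  have k1 : |(z : V4) 1| ≤ 1 := by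
    rw [z1, abs_mul, abs_neg]
    calc |a| * |(z : V4) 3| ≤ 1 * 1 := mul_le_mul ha1 k3 (abs_nonneg _) (by norm_num)
      _ = 1 := one_mul _
  have := norm_le_of_coord (x := (z : V4)) (r := 1) (by norm_num) (by
    intro i
    fin_cases i
    · exact k0
    · exact k1
    · exact k2
    · exact k3)
  exact this

lemma interior_WF (a : ℝ) : (interior (WF a (W0 e κ B))).Nonempty := by
  have hpos : (0 : ℝ) < 1 + a ^ 2 := by positivity
  have hm : (WithLp.toLp 2 ![a * (3 / (4 * (1 + a ^ 2))), a * (3 / (4 * (1 + a ^ 2))),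
      -(3 / (4 * (1 + a ^ 2))), -(3 / (4 * (1 + a ^ 2)))] : V4) ∈ FF a := by
    constructor
    · show a * (3 / (4 * (1 + a ^ 2))) = -a * -(3 / (4 * (1 + a ^ 2))); ring
    · show a * (3 / (4 * (1 + a ^ 2))) = -a * -(3 / (4 * (1 + a ^ 2))); ring
  refine ⟨⟨_, hm⟩, ?_⟩
  rw [mem_interior]
  let O : Set (ℝ × ℝ) := Set.Ioo (1 / 2 : ℝ) 1 ×ˢ Set.Ioo (1 / 2 : ℝ) 1
  refine ⟨Φ a ⁻¹' O, ?_, (isOpen_Ioo.prod isOpen_Ioo).preimage (continuous_Φ a), ?_⟩
  · intro z hz
    left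
    obtain ⟨⟨h1, h2⟩, h3, h4⟩ := hz
    exact ⟨⟨h1.le, h2⟩, h3.le, h4⟩
  · rw [Set.mem_preimage]
    have e1 : Φ a ⟨_, hm⟩ = (3 / 4, 3 / 4) := by
      unfold Φ
      have : -(1 + a ^ 2) * -(3 / (4 * (1 + a ^ 2))) = 3 / 4 := by field_simp
      exact Prod.ext this this
    rw [e1]
    constructor <;> constructor <;> norm_num

end Pool.Agent.Helper90.Geo
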