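import Mathlib
import Pool.Agent.Helper90.St3
import Pool.Agent.Helper90.BK5

set_option autoImplicit false

namespace Pool.Agent.Helper90.St

open Pool.Agent.Helper90.BK

variable {e κ : ℕ → ℕ} {B : ℕ → ℕ → ℕ → Bool}

lemma residue_surj {p q : ℕ} (hq : 1 < q) (hpq : Nat.Coprime p q) (i b : ℕ) (hb : b < q) :
    ∃ x, q * i ≤ x ∧ x < q * i + q ∧ x * p % q = b := by
  obtain ⟨m, -, hm⟩ := Nat.exists_mul_mod_eq_one_of_coprime hpq hq
  refine ⟨q * i + (b * m) % q, by omega, ?_, ?_⟩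
  · have := Nat.mod_lt (b * m) (show 0 < q by omega)
    omega
  · have h1 : (q * i + (b * m) % q) * p ≡ b [MOD q] := by
      calc (q * i + (b * m) % q) * p ≡ (0 + b * m) * p [MOD q] := by
            apply Nat.ModEq.mul_right
            apply Nat.ModEq.add
            · exact (Nat.modEq_zero_iff_dvd.2 (dvd_mul_right _ _))
            · exact Nat.mod_modEq _ _
        _ = b * (p * m) := by ring
        _ ≡ b * 1 [MOD q] := by
            apply Nat.ModEq.mul_left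
            have : p * m % q = 1 % q := by rw [hm, Nat.mod_eq_of_lt hq]
            exact this
        _ = b := mul_one b
    have h2 : (q * i + (b * m) % q) * p % q = b % q := h1
    rw [h2, Nat.mod_eq_of_lt hb]

lemma residue_inj {p q : ℕ} (hpq : Nat.Coprime p q) (i x y : ℕ)
    (hx1 : q * i ≤ x) (hx2 : x < q * i + q) (hy1 : q * i ≤ y) (hy2 : y < q * i + q)
    (h : x * p % q = y * p % q) : x = y := by
  have h1 : x * p ≡ y * p [MOD q] := h
  have h2 : x ≡ y [MOD q] := Nat.ModEq.cancel_right_of_coprime (by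
    rw [Nat.gcd_comm]; exact hpq) h1
  rcases le_total x y with hxy | hxy
  · have h3 := (Nat.modEq_iff_dvd' hxy).1 h2
    have h4 : y - x < q := by omega
    have := Nat.eq_zero_of_dvd_of_lt h3 h4
    omega
  · have h3 := (Nat.modEq_iff_dvd' hxy).1 h2.symm
    have h4 : x - y < q := by omega
    have := Nat.eq_zero_of_dvd_of_lt h3 h4
    omega

open scoped Classical in
/-- the residues always present -/
noncomputable def Ub (e κ : ℕ → ℕ) (B : ℕ → ℕ → ℕ → Bool) (j : ℕ) : Finset (ℕ × ℕ) :=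
  (Finset.range (2 ^ (e j)) ×ˢ Finset.range (2 ^ (e j))).filter (Uc e κ B j)

lemma block_count (h : Grow e κ) (j i i' : ℕ) (hi : i < 2 ^ (κ j) * 4) (hi' : i' < 2 ^ (κ j) * 4) :
    (Ub e κ B j).card ≤ cnt (Y0 e κ B) (2 ^ (e j)) i i' ∧
    cnt (Y0 e κ B) (2 ^ (e j)) i i' ≤ (Ub e κ B j).card + 5 ∧
    typ (Ub e κ B j).card (B j (i / 4) (i' / 4)) (cnt (Y0 e κ B) (2 ^ (e j)) i i') := by
  classical
  set q : ℕ := 2 ^ (e j) with hq
  set p : ℕ := pnum e j with hp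
  have hq8 : 8 ≤ q := by
    calc 8 = 2 ^ 3 := by norm_num
      _ ≤ 2 ^ (e j) := Nat.pow_le_pow_right (by norm_num) (h.three_le j)
  have hpq : Nat.Coprime p q := h.coprime j
  set blk : Finset (ℤ × ℤ) := (((Finset.Ico (q * i : ℤ) (q * i + q)) ×ˢ
    (Finset.Ico (q * i' : ℤ) (q * i' + q))).filter (· ∈ Y0 e κ B)) with hblk
  have hcnt : cnt (Y0 e κ B) q i i' = blk.card := rfl
  -- naturals
  have hnat : ∀ n ∈ blk, ∃ x y : ℕ, n = ((x : ℤ), (y : ℤ)) ∧ q * i ≤ x ∧ x < q * i + q ∧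
      q * i' ≤ y ∧ y < q * i' + q ∧ ((x : ℤ), (y : ℤ)) ∈ Y0 e κ B := by
    intro n hn
    rw [hblk, Finset.mem_filter, Finset.mem_product, Finset.mem_Ico, Finset.mem_Ico] at hn
    obtain ⟨⟨⟨h1, h2⟩, h3, h4⟩, h5⟩ := hn
    have h1' : (0 : ℤ) ≤ n.1 := le_trans (by positivity) h1
    have h3' : (0 : ℤ) ≤ n.2 := le_trans (by positivity) h3
    obtain ⟨x, hx⟩ := Int.eq_ofNat_of_zero_le h1'
    obtain ⟨y, hy⟩ := Int.eq_ofNat_of_zero_le h3'
    have hn2 : n = ((x : ℤ), (y : ℤ)) := Prod.ext hx hy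
    rw [hx] at h1 h2
    rw [hy] at h3 h4
    refine ⟨x, y, hn2, by exact_mod_cast h1, by exact_mod_cast h2, by exact_mod_cast h3,
      by exact_mod_cast h4, hn2 ▸ h5⟩
  have hmemblk : ∀ x y : ℕ, q * i ≤ x → x < q * i + q → q * i' ≤ y → y < q * i' + q →
      ((x : ℤ), (y : ℤ)) ∈ Y0 e κ B → ((x : ℤ), (y : ℤ)) ∈ blk := by
    intro x y h1 h2 h3 h4 h5
    rw [hblk, Finset.mem_filter, Finset.mem_product, Finset.mem_Ico, Finset.mem_Ico]
    refine ⟨⟨⟨?_, ?_⟩, ?_, ?_⟩, h5⟩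
    · show (q * i : ℤ) ≤ (x : ℤ); exact_mod_cast h1
    · show (x : ℤ) < (q * i + q : ℤ); exact_mod_cast h2
    · show (q * i' : ℤ) ≤ (y : ℤ); exact_mod_cast h3
    · show (y : ℤ) < (q * i' + q : ℤ); exact_mod_cast h4
  have hbd : ∀ (i x : ℕ), i < 2 ^ (κ j) * 4 → x < q * i + q → x < 2 ^ (e (j + 1) - e j) := by
    intro i x hi hx
    rw [h.pow_sub_eq j, ← hq]
    calc x < q * i + q := hx
      _ = q * (i + 1) := by ring
      _ ≤ q * (2 ^ (κ j) * 4) := Nat.mul_le_mul_left _ hi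
      _ = 4 * q * 2 ^ (κ j) := by ring
  have hdiv : ∀ (i x : ℕ), q * i ≤ x → x < q * i + q → x / (4 * q) = i / 4 := by
    intro i x h1 h2
    have h3 : x / q = i := by
      rw [Nat.div_eq_iff (by omega)]
      constructor
      · rw [mul_comm]; exact h1
      · have : i * q = q * i := mul_comm _ _
        omega
    rw [mul_comm, ← Nat.div_div_eq_div_mul, h3]
  let φ : ℤ × ℤ → ℕ × ℕ := fun n => (n.1.toNat * p % q, n.2.toNat * p % q)
  have hφ : ∀ x y : ℕ, φ ((x : ℤ), (y : ℤ)) = (x * p % q, y * p % q) := by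
    intro x y; simp [φ]
  have hinj : Set.InjOn φ blk := by
    intro n hn n' hn' hnn
    obtain ⟨x, y, rfl, a1, a2, a3, a4, -⟩ := hnat n hn
    obtain ⟨x', y', rfl, b1, b2, b3, b4, -⟩ := hnat n' hn'
    rw [hφ, hφ, Prod.mk.injEq] at hnn
    rw [residue_inj hpq i x x' a1 a2 b1 b2 hnn.1, residue_inj hpq i' y y' a3 a4 b3 b4 hnn.2]
  have hcard : blk.card = (blk.image φ).card := (Finset.card_image_of_injOn hinj).symm
  set four : Finset (ℕ × ℕ) := {1, 2} ×ˢ {1, 2} with hfour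
  have hfourcard : four.card = 4 := by rw [hfour]; decide
  have hmem4 : ∀ b : ℕ × ℕ, b ∈ four ↔ (b.1 = 1 ∨ b.1 = 2) ∧ (b.2 = 1 ∨ b.2 = 2) := by
    intro b; rw [hfour]; simp [Finset.mem_product]
  -- surjectivity
  have hsurj : ∀ b : ℕ × ℕ, b.1 < q → b.2 < q → ∃ x y : ℕ, q * i ≤ x ∧ x < q * i + q ∧
      q * i' ≤ y ∧ y < q * i' + q ∧ x * p % q = b.1 ∧ y * p % q = b.2 := by
    intro b h1 h2
    obtain ⟨x, x1, x2, x3⟩ := residue_surj (by omega) hpq i b.1 h1
    obtain ⟨y, y1, y2, y3⟩ := residue_surj (by omega) hpq i' b.2 h2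
    exact ⟨x, y, x1, x2, y1, y2, x3, y3⟩
  have hUsub : Ub e κ B j ⊆ blk.image φ := by
    intro b hb
    rw [Ub, Finset.mem_filter, Finset.mem_product, Finset.mem_range, Finset.mem_range] at hb
    obtain ⟨⟨b1, b2⟩, b3⟩ := hb
    obtain ⟨x, y, x1, x2, y1, y2, x3, y3⟩ := hsurj b b1 b2
    rw [Finset.mem_image]
    refine ⟨((x : ℤ), (y : ℤ)), hmemblk x y x1 x2 y1 y2 ?_, ?_⟩
    · rw [mem_Y0_other h j x y (hbd i x hi x2) (hbd i' y hi' y2)]
      · rw [← hq, ← hp, x3, y3]; exact b3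
      · rw [← hq, ← hp, x3, y3]; exact b3.1
      · rw [← hq, ← hp, x3, y3]; exact b3.2.1
    · rw [hφ, x3, y3]
  have hsup : ∀ b ∈ blk.image φ, b ∈ Ub e κ B j ∨ (b ∈ four ∧ B j (i / 4) (i' / 4) = true) ∨
      b = (0, 0) := by
    intro b hb
    rw [Finset.mem_image] at hb
    obtain ⟨n, hn, rfl⟩ := hb
    obtain ⟨x, y, rfl, x1, x2, y1, y2, hY⟩ := hnat n hn
    rw [hφ]
    by_cases c0 : x * p % q = 0 ∧ y * p % q = 0
    · right; right; rw [c0.1, c0.2]
    by_cases c12 : (x * p % q = 1 ∨ x * p % q = 2) ∧ (y * p % q = 1 ∨ y * p % q = 2)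
    · right; left
      refine ⟨(hmem4 _).2 c12, ?_⟩
      rw [mem_Y0_pattern h j x y (hbd i x hi x2) (hbd i' y hi' y2) c12.1 c12.2, ← hq,
        hdiv i x x1 x2, hdiv i' y y1 y2] at hY
      exact hY
    · left
      rw [mem_Y0_other h j x y (hbd i x hi x2) (hbd i' y hi' y2) c0 c12] at hY
      rw [Ub, Finset.mem_filter, Finset.mem_product, Finset.mem_range, Finset.mem_range]
      exact ⟨⟨Nat.mod_lt _ (by omega), Nat.mod_lt _ (by omega)⟩, hY⟩
  have hdisj : Disjoint (Ub e κ B j) four := by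
    rw [Finset.disjoint_left]
    intro b hb hb4
    rw [Ub, Finset.mem_filter] at hb
    exact hb.2.2.1 ((hmem4 b).1 hb4)
  have hlow : (Ub e κ B j).card ≤ blk.card := by
    rw [hcard]; exact Finset.card_le_card hUsub
  have hup5 : blk.card ≤ (Ub e κ B j).card + 5 := by
    rw [hcard]
    have hs : blk.image φ ⊆ (Ub e κ B j) ∪ (four ∪ {(0, 0)}) := by
      intro b hb
      rw [Finset.mem_union, Finset.mem_union, Finset.mem_singleton]
      rcases hsup b hb with h1 | ⟨h1, -⟩ | h1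
      · exact Or.inl h1
      · exact Or.inr (Or.inl h1)
      · exact Or.inr (Or.inr h1)
    calc _ ≤ _ := Finset.card_le_card hs
      _ ≤ (Ub e κ B j).card + (four ∪ {(0, 0)}).card := Finset.card_union_le _ _
      _ ≤ (Ub e κ B j).card + (four.card + 1) := by
          have := Finset.card_union_le four {((0 : ℕ), (0 : ℕ))}
          rw [Finset.card_singleton] at this
          omega
      _ = (Ub e κ B j).card + 5 := by rw [hfourcard]
  rw [hcnt]
  refine ⟨hlow, hup5, ?_⟩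
  unfold typ
  by_cases hB : B j (i / 4) (i' / 4) = true
  · rw [if_pos hB]
    have hs : (Ub e κ B j) ∪ four ⊆ blk.image φ := by
      intro b hb
      rw [Finset.mem_union] at hb
      rcases hb with hb | hb
      · exact hUsub hb
      · have hb' := (hmem4 b).1 hb
        obtain ⟨x, y, x1, x2, y1, y2, x3, y3⟩ := hsurj b (by omega) (by omega)
        rw [Finset.mem_image]
        refine ⟨((x : ℤ), (y : ℤ)), hmemblk x y x1 x2 y1 y2 ?_, ?_⟩
        · rw [mem_Y0_pattern h j x y (hbd i x hi x2) (hbd i' y hi' y2), ← hq, hdiv i x x1 x2,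
            hdiv i' y y1 y2]
          · exact hB
          · rw [← hq, ← hp, x3]; exact hb'.1
          · rw [← hq, ← hp, y3]; exact hb'.2
        · rw [hφ, x3, y3]
    calc (Ub e κ B j).card + 4 = ((Ub e κ B j) ∪ four).card := by
          rw [Finset.card_union_of_disjoint hdisj, hfourcard]
      _ ≤ (blk.image φ).card := Finset.card_le_card hs
      _ = blk.card := hcard.symm
  · rw [if_neg hB]
    have hs : blk.image φ ⊆ (Ub e κ B j) ∪ {(0, 0)} := by
      intro b hb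
      rw [Finset.mem_union, Finset.mem_singleton]
      rcases hsup b hb with h1 | ⟨-, h1⟩ | h1
      · exact Or.inl h1
      · exact absurd h1 hB
      · exact Or.inr h1
    calc blk.card = (blk.image φ).card := hcard
      _ ≤ ((Ub e κ B j) ∪ {(0, 0)}).card := Finset.card_le_card hs
      _ ≤ (Ub e κ B j).card + 1 := by
          refine (Finset.card_union_le _ _).trans ?_
          rw [Finset.card_singleton]

lemma block_lat (h : Grow e κ) (j : ℕ) : ∃ a < 2 ^ (e j), ∀ i i' : ℕ, i < 2 ^ (κ j) * 4 →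
    i' < 2 ^ (κ j) * 4 →
    (((2 ^ (e j) * i + a : ℕ) : ℤ), ((2 ^ (e j) * i' + a : ℕ) : ℤ)) ∈ Y0 e κ B := by
  set q : ℕ := 2 ^ (e j) with hq
  set p : ℕ := pnum e j with hp
  have hq8 : 8 ≤ q := by
    calc 8 = 2 ^ 3 := by norm_num
      _ ≤ 2 ^ (e j) := Nat.pow_le_pow_right (by norm_num) (h.three_le j)
  have hpq : Nat.Coprime p q := h.coprime j
  obtain ⟨a, -, ha2, ha3⟩ := residue_surj (by omega) hpq 0 (q - 1) (by omega)
  refine ⟨a, by omega, ?_⟩
  have key : ∀ i : ℕ, i < 2 ^ (κ j) * 4 → 1 / 2 ≤ Int.fract (al e * ((q * i + a : ℕ) : ℝ)) ∧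
      Int.fract (al e * ((q * i + a : ℕ) : ℝ)) < 1 := by
    intro i hi
    refine ⟨?_, Int.fract_lt_one _⟩
    have hx : q * i + a < 2 ^ (e (j + 1) - e j) := by
      rw [h.pow_sub_eq j, ← hq]
      calc q * i + a < q * i + q := by omega
        _ = q * (i + 1) := by ring
        _ ≤ q * (2 ^ (κ j) * 4) := Nat.mul_le_mul_left _ hi
        _ = 4 * q * 2 ^ (κ j) := by ring
    have h1 := h.floor1 j (q * i + a) hx
    have h2 : (q * i + a) * pnum e j % 2 ^ (e j) = q - 1 := by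
      rw [← hq, ← hp, add_mul, mul_assoc, Nat.mul_add_mod, ha3]
    rw [h2] at h1
    have h3 : ((q - 1 : ℕ) : ℝ) ≤ 2 ^ (e j) * Int.fract (al e * ((q * i + a : ℕ) : ℝ)) := by
      rw [← h1]
      exact Nat.floor_le (mul_nonneg (by positivity) (Int.fract_nonneg _))
    have hqr : (2 : ℝ) ^ (e j) = q := by rw [hq]; push_cast; rfl
    rw [hqr, Nat.cast_sub (by omega)] at h3
    have hq8r : (8 : ℝ) ≤ q := by exact_mod_cast hq8
    push_cast at h3 ⊢
    by_contra hcon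
    rw [not_le] at hcon
    nlinarith
  intro i i' hi hi'
  unfold Y0
  rw [Set.mem_ofPred_eq]
  left
  have k1 := key i hi
  have k2 := key i' hi'
  exact ⟨k1, k2⟩

/-- the property supplied by the discrete Burago–Kleiner theorem -/
def BKprop (H : Type*) [NormedAddCommGroup H] (L : ℝ) (q κ : ℕ) (B : ℕ → ℕ → Bool) : Prop :=
  ∀ (t u a1 a2 : ℕ) (Y : Set (ℤ × ℤ)) (Λ : AddSubgroup H)
      (f : ℤ × ℤ → H), 0 < t → Set.BijOn f Y Λ →
      (∀ y ∈ Y, ∀ y' ∈ Y, ‖f y - f y'‖ ≤ L * dist y y') →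
      (∀ y ∈ Y, ∀ y' ∈ Y, dist y y' ≤ L * ‖f y - f y'‖) →
      a1 < q → a2 < q →
      (∀ i j : ℕ, i < 2 ^ κ * t → j < 2 ^ κ * t →
        (((q * i + a1 : ℕ) : ℤ), ((q * j + a2 : ℕ) : ℤ)) ∈ Y) →
      (∀ i j : ℕ, i < 2 ^ κ * t → j < 2 ^ κ * t → u ≤ cnt Y q i j ∧ cnt Y q i j ≤ u + 5 ∧
        typ u (B (i / t) (j / t)) (cnt Y q i j)) → False

theorem no_bilip {H : Type*} [NormedAddCommGroup H] (h : Grow e κ)
    (hB : ∀ j : ℕ, BKprop H ((j : ℝ) + 1) (2 ^ (e j)) (κ j) (B j))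
    (Λ : AddSubgroup H) (f : ℤ × ℤ → H) (c : ℝ)
    (hbij : Set.BijOn f (Y0 e κ B) Λ)
    (hlip : ∀ y ∈ Y0 e κ B, ∀ y' ∈ Y0 e κ B, ‖f y - f y'‖ ≤ c * dist y y')
    (hcolip : ∀ y ∈ Y0 e κ B, ∀ y' ∈ Y0 e κ B, dist y y' ≤ c * ‖f y - f y'‖) : False := by
  obtain ⟨j, hj⟩ := exists_nat_ge c
  obtain ⟨a, ha, hlat⟩ := block_lat (B := B) h j
  refine hB j 4 (Ub e κ B j).card a a (Y0 e κ B) Λ f (by norm_num) hbij ?_ ?_ ha ha hlat ?_
  · intro y hy y' hy'
    refine (hlip y hy y' hy').trans (mul_le_mul_of_nonneg_right ?_ dist_nonneg)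
    linarith
  · intro y hy y' hy'
    refine (hcolip y hy y' hy').trans (mul_le_mul_of_nonneg_right ?_ (norm_nonneg _))
    linarith
  · intro i i' hi hi'
    exact block_count h j i i' hi hi'

/-- existence of the data -/
theorem exists_data (H : Type*) [NormedAddCommGroup H] [InnerProductSpace ℝ H] :
    ∃ (e κ : ℕ → ℕ) (B : ℕ → ℕ → ℕ → Bool), Grow e κ ∧
      ∀ j : ℕ, BKprop H ((j : ℝ) + 1) (2 ^ (e j)) (κ j) (B j) := by
  have key : ∀ j q : ℕ, ∃ (κ : ℕ) (B : ℕ → ℕ → Bool), BKprop H ((j : ℝ) + 1) (2 ^ q) κ B := by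
    intro j q
    exact bk H ((j : ℝ) + 1) (by have : (0 : ℝ) ≤ j := Nat.cast_nonneg j; linarith) (2 ^ q)
      (by positivity)
  choose K B hKB using key
  let e : ℕ → ℕ := fun j => Nat.rec 3 (fun j x => 2 * x + K j x + 2) j
  refine ⟨e, fun j => K j (e j), fun j => B j (e j), ⟨rfl, fun j => rfl⟩, fun j => hKB j (e j)⟩

end Pool.Agent.Helper90.St
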