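import Mathlib
import Pool.Agent.Helper90.Geo2
import Pool.Agent.Helper90.St4

set_option autoImplicit false
set_option linter.deprecated false

namespace Pool.Agent.Helper90.Geo

open Pool.Agent.Helper90.St

variable {e κ : ℕ → ℕ} {B : ℕ → ℕ → ℕ → Bool}

/-- the integer point above `n` -/
noncomputable def iot (a : ℝ) (n : ℤ × ℤ) : V4 :=
  WithLp.toLp 2 ![(n.1 : ℝ), (n.2 : ℝ), ((⌊a * n.1⌋ : ℤ) : ℝ), ((⌊a * n.2⌋ : ℤ) : ℝ)]

lemma iot0 (a : ℝ) (n : ℤ × ℤ) : iot a n 0 = n.1 := rfl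
lemma iot1 (a : ℝ) (n : ℤ × ℤ) : iot a n 1 = n.2 := rfl
lemma iot2 (a : ℝ) (n : ℤ × ℤ) : iot a n 2 = ((⌊a * n.1⌋ : ℤ) : ℝ) := rfl
lemma iot3 (a : ℝ) (n : ℤ × ℤ) : iot a n 3 = ((⌊a * n.2⌋ : ℤ) : ℝ) := rfl

lemma iot_int (a : ℝ) (n : ℤ × ℤ) : IntPt (iot a n) := by
  rw [intPt_iff]
  intro i
  fin_cases i
  · exact ⟨n.1, rfl⟩
  · exact ⟨n.2, rfl⟩
  · exact ⟨_, rfl⟩
  · exact ⟨_, rfl⟩

/-- one coordinate of the projected point -/
lemma coord_formula (a x : ℝ) :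
    (x + a * ((⌊a * x⌋ : ℤ) : ℝ)) / (1 + a ^ 2) = x - a / (1 + a ^ 2) * Int.fract (a * x) := by
  have hpos : (1 + a ^ 2) ≠ 0 := by positivity
  have h1 : ((⌊a * x⌋ : ℤ) : ℝ) = a * x - Int.fract (a * x) := by
    rw [Int.fract]; ring
  rw [h1]; field_simp; ring

lemma coord_diff {a : ℝ} (ha0 : 0 < a) (ha1 : a ≤ 1 / 4) (x y : ℝ) :
    |((x + a * ((⌊a * x⌋ : ℤ) : ℝ)) / (1 + a ^ 2) - (y + a * ((⌊a * y⌋ : ℤ) : ℝ)) / (1 + a ^ 2)) -
      (x - y)| ≤ 1 / 4 := by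
  rw [coord_formula, coord_formula]
  have hpos : (0 : ℝ) < 1 + a ^ 2 := by positivity
  have e1 : (x - a / (1 + a ^ 2) * Int.fract (a * x)) - (y - a / (1 + a ^ 2) * Int.fract (a * y)) -
      (x - y) = a / (1 + a ^ 2) * (Int.fract (a * y) - Int.fract (a * x)) := by ring
  rw [e1, abs_mul]
  have h1 : |a / (1 + a ^ 2)| ≤ 1 / 4 := by
    rw [abs_of_nonneg (by positivity), div_le_iff₀ hpos]
    nlinarith [sq_nonneg a]
  have h2 : |Int.fract (a * y) - Int.fract (a * x)| ≤ 1 := by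
    rw [abs_le]
    constructor <;> linarith [Int.fract_nonneg (a * y), Int.fract_nonneg (a * x),
      Int.fract_lt_one (a * y), Int.fract_lt_one (a * x)]
  calc _ ≤ (1 / 4 : ℝ) * 1 := mul_le_mul h1 h2 (abs_nonneg _) (by norm_num)
    _ = 1 / 4 := mul_one _

lemma dist_bounds {a : ℝ} (ha0 : 0 < a) (ha1 : a ≤ 1 / 4) (n m : ℤ × ℤ) :
    dist n m ≤ 3 * dist (PE a (iot a n)) (PE a (iot a m)) ∧
    dist (PE a (iot a n)) (PE a (iot a m)) ≤ 3 * dist n m := by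
  by_cases hnm : n = m
  · subst hnm; simp
  -- the sup distance is at least one
  have hd1 : (1 : ℝ) ≤ dist n m := by
    rw [Prod.dist_eq]
    by_contra hcon
    rw [not_le, max_lt_iff] at hcon
    apply hnm
    have key : ∀ x y : ℤ, dist x y < 1 → x = y := by
      intro x y hxy
      rw [Int.dist_eq] at hxy
      have : |x - y| < 1 := by exact_mod_cast hxy
      rw [Int.abs_lt_one_iff] at this
      omega
    exact Prod.ext (key _ _ hcon.1) (key _ _ hcon.2)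
  set d := dist n m with hd
  set v := PE a (iot a n) - PE a (iot a m) with hv
  have hdist : dist (PE a (iot a n)) (PE a (iot a m)) = ‖v‖ := dist_eq_norm _ _
  have hv0 : |v 0 - ((n.1 : ℝ) - m.1)| ≤ 1 / 4 := by
    rw [hv, PiLp.sub_apply, PE0, PE0, iot0, iot0, iot2, iot2]
    exact coord_diff ha0 ha1 _ _
  have hv1 : |v 1 - ((n.2 : ℝ) - m.2)| ≤ 1 / 4 := by
    rw [hv, PiLp.sub_apply, PE1, PE1, iot1, iot1, iot3, iot3]
    exact coord_diff ha0 ha1 _ _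
  have hv2 : v 2 = a * v 0 := by
    rw [hv, PiLp.sub_apply, PiLp.sub_apply, PE2, PE2, PE0, PE0]; ring
  have hv3 : v 3 = a * v 1 := by
    rw [hv, PiLp.sub_apply, PiLp.sub_apply, PE3, PE3, PE1, PE1]; ring
  have hdn : d = max |(n.1 : ℝ) - m.1| |(n.2 : ℝ) - m.2| := by
    rw [hd, Prod.dist_eq, Int.dist_eq, Int.dist_eq]
  have hle0 : |(n.1 : ℝ) - m.1| ≤ d := by rw [hdn]; exact le_max_left _ _
  have hle1 : |(n.2 : ℝ) - m.2| ≤ d := by rw [hdn]; exact le_max_right _ _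
  rw [hdist]
  constructor
  · -- lower bound
    have c0 := coord_le_norm v 0
    have c1 := coord_le_norm v 1
    have k0 : |(n.1 : ℝ) - m.1| ≤ |v 0| + 1 / 4 := by
      have : (n.1 : ℝ) - m.1 = v 0 - (v 0 - ((n.1 : ℝ) - m.1)) := by ring
      rw [this]
      exact (abs_sub _ _).trans (by linarith)
    have k1 : |(n.2 : ℝ) - m.2| ≤ |v 1| + 1 / 4 := by
      have : (n.2 : ℝ) - m.2 = v 1 - (v 1 - ((n.2 : ℝ) - m.2)) := by ring
      rw [this]
      exact (abs_sub _ _).trans (by linarith)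
    have k2 : d ≤ ‖v‖ + 1 / 4 := by
      rw [hdn]; apply max_le <;> linarith
    linarith
  · -- upper bound
    have k0 : |v 0| ≤ d + 1 / 4 := by
      have : v 0 = (v 0 - ((n.1 : ℝ) - m.1)) + ((n.1 : ℝ) - m.1) := by ring
      rw [this]
      exact (abs_add_le _ _).trans (by linarith)
    have k1 : |v 1| ≤ d + 1 / 4 := by
      have : v 1 = (v 1 - ((n.2 : ℝ) - m.2)) + ((n.2 : ℝ) - m.2) := by ring
      rw [this]
      exact (abs_add_le _ _).trans (by linarith)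
    have k2 : |v 2| ≤ d + 1 / 4 := by
      rw [hv2, abs_mul, abs_of_pos ha0]
      nlinarith [abs_nonneg (v 0)]
    have k3 : |v 3| ≤ d + 1 / 4 := by
      rw [hv3, abs_mul, abs_of_pos ha0]
      nlinarith [abs_nonneg (v 1)]
    have := norm_le_of_coord (x := v) (r := d + 1 / 4) (by linarith) (by
      intro i
      fin_cases i
      · exact k0
      · exact k1
      · exact k2
      · exact k3)
    linarith

/-- the cut-and-project set -/
def YY (a : ℝ) (W : Set (ℝ × ℝ)) : Set V4 :=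
  (PE a) '' {x | IntPt x ∧ (a * x 0 - x 2, a * x 1 - x 3) ∈ W}

lemma bijOn_iot {a : ℝ} (ha0 : 0 < a) (ha1 : a ≤ 1 / 4) (h : Grow e κ) (hal : a = al e) :
    Set.BijOn (fun n => PE a (iot a n)) (Y0 e κ B) (YY a (W0 e κ B)) := by
  refine ⟨?_, ?_, ?_⟩
  · intro n hn
    refine ⟨iot a n, ⟨iot_int a n, ?_⟩, rfl⟩
    rw [iot0, iot1, iot2, iot3]
    unfold Y0 at hn
    rw [Set.mem_ofPred_eq, ← hal] at hn
    rw [← Int.fract, ← Int.fract]
    exact hn
  · intro n _ m _ hnm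
    have h1 := (dist_bounds ha0 ha1 n m).1
    simp only at hnm
    rw [hnm, dist_self, mul_zero] at h1
    exact dist_le_zero.1 h1
  · rintro y ⟨x, ⟨hx1, hx2⟩, rfl⟩
    rw [intPt_iff] at hx1
    obtain ⟨x0, h0⟩ := hx1 0
    obtain ⟨x1, h1⟩ := hx1 1
    obtain ⟨x2, h2⟩ := hx1 2
    obtain ⟨x3, h3⟩ := hx1 3
    have hb := W0_bounds h hx2
    simp only at hb
    rw [h0, h1, h2, h3] at hb
    have f0 : ⌊a * x0⌋ = x2 := by
      rw [Int.floor_eq_iff]; constructor <;> linarith [hb.1.1, hb.1.2]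
    have f1 : ⌊a * x1⌋ = x3 := by
      rw [Int.floor_eq_iff]; constructor <;> linarith [hb.2.1, hb.2.2]
    have hxi : x = iot a (x0, x1) := by
      ext i
      fin_cases i
      · exact h0
      · exact h1
      · show x 2 = ((⌊a * x0⌋ : ℤ) : ℝ)
        rw [f0]; exact h2
      · show x 3 = ((⌊a * x1⌋ : ℤ) : ℝ)
        rw [f1]; exact h3
    refine ⟨(x0, x1), ?_, by rw [hxi]⟩
    unfold Y0
    rw [Set.mem_ofPred_eq, ← hal]
    rw [hxi, iot0, iot1, iot2, iot3] at hx2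
    rw [Int.fract, Int.fract]
    exact hx2

theorem no_bilip_YY {a : ℝ} (ha0 : 0 < a) (ha1 : a ≤ 1 / 4) (h : Grow e κ) (hal : a = al e)
    (hB : ∀ j : ℕ, BKprop V4 ((j : ℝ) + 1) (2 ^ (e j)) (κ j) (B j))
    (Λ : AddSubgroup V4) (f : V4 → V4) (c : ℝ) (hc : 0 < c)
    (hbij : Set.BijOn f (YY a (W0 e κ B)) Λ)
    (hlip : ∀ y ∈ YY a (W0 e κ B), ∀ y' ∈ YY a (W0 e κ B),
      dist y y' ≤ c * dist (f y) (f y') ∧ dist (f y) (f y') ≤ c * dist y y') : False := by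
  have hb := bijOn_iot (B := B) ha0 ha1 h hal
  refine no_bilip h hB Λ (fun n => f (PE a (iot a n))) (3 * c) (hbij.comp hb) ?_ ?_
  · intro n hn m hm
    have h1 := (hlip _ (hb.mapsTo hn) _ (hb.mapsTo hm)).2
    have h2 := (dist_bounds ha0 ha1 n m).2
    rw [dist_eq_norm] at h1
    calc ‖f (PE a (iot a n)) - f (PE a (iot a m))‖ ≤ c * dist (PE a (iot a n)) (PE a (iot a m)) := h1
      _ ≤ c * (3 * dist n m) := mul_le_mul_of_nonneg_left h2 hc.le
      _ = 3 * c * dist n m := by ring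
  · intro n hn m hm
    have h1 := (hlip _ (hb.mapsTo hn) _ (hb.mapsTo hm)).1
    have h2 := (dist_bounds ha0 ha1 n m).1
    rw [dist_eq_norm (f _)] at h1
    calc dist n m ≤ 3 * dist (PE a (iot a n)) (PE a (iot a m)) := h2
      _ ≤ 3 * (c * ‖f (PE a (iot a n)) - f (PE a (iot a m))‖) :=
        mul_le_mul_of_nonneg_left h1 (by norm_num)
      _ = 3 * c * ‖f (PE a (iot a n)) - f (PE a (iot a m))‖ := by ring

end Pool.Agent.Helper90.Geo
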